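import Pool.Agent.Helper74.MC.CBLc

/-!
# Packet MC-CBL: lower bound for the primes with rough neighbours
-/

set_option autoImplicit false

open Finset Filter Topology

open scoped Classical

namespace Pool.Agent.Helper74.MC

open Pool.Agent.Helper88.PP (pr Rg om QQ)
open Pool.Agent.Helper88.GM (NI XI)
open Pool.Agent.Helper88.CG (pw th)
open Pool.Agent.Helper23.MC
open Pool.Agent.Helper54.CG (mem_pr' QQ_pos pw_nonneg pw_supp)

theorem parA (A E z x y : ℕ) (hE : 2000 ≤ E) (hSr : SrA A E z x y) :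
    (E : ℝ) ≤ Real.log z ∧ (E : ℝ) * Real.log z ≤ Real.log x ∧
    2 * Real.log E ≤ Real.log (Real.log x) ∧
    Real.exp (Real.log (Real.log x)) = Real.log x ∧
    (y : ℝ) ≤ Real.exp (A * Real.log (Real.log x)) ∧ 0 < x ∧
    (QQ x : ℝ) ≤ Real.exp (7 / 100 * Real.log x) := by
  obtain ⟨hz1, hx1, hx2, hy1, hy2, hL3⟩ := hSr
  have hE' : (2000 : ℝ) ≤ E := by exact_mod_cast hE
  have hz0 : (0 : ℝ) < z := lt_of_lt_of_le (Real.exp_pos _) hz1
  set l := Real.log (z : ℝ) with hl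
  have hl1 : (E : ℝ) ≤ l := by
    rw [hl, Real.le_log_iff_exp_le hz0]
    exact hz1
  have hxz : (z : ℝ) ^ E ≤ x := by exact_mod_cast hx1
  have hx0 : (0 : ℝ) < x := lt_of_lt_of_le (by positivity) hxz
  have hx0' : 0 < x := by exact_mod_cast hx0
  have hX : (E : ℝ) * l ≤ Real.log x := by
    rw [hl, ← Real.log_pow]
    exact Real.log_le_log (by positivity) hxz
  have hEE : (E : ℝ) * E ≤ E * l := mul_le_mul_of_nonneg_left hl1 (by linarith)
  have hEE2 : 2000 * (E : ℝ) ≤ E * E := mul_le_mul_of_nonneg_right hE' (by linarith)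
  have hX0 : 0 < Real.log x := by linarith
  have hexpL2 : Real.exp (Real.log (Real.log x)) = Real.log x := Real.exp_log hX0
  refine ⟨hl1, hX, ?_, hexpL2, ?_, hx0', ?_⟩
  · have h1 : 2 * Real.log E = Real.log ((E : ℝ) * E) := by
      rw [Real.log_mul (by positivity) (by positivity)]
      ring
    rw [h1]
    exact Real.log_le_log (by positivity) (by linarith)
  · refine hy2.trans (le_of_eq ?_)
    rw [Real.exp_nat_mul, hexpL2]
  have h1 : (QQ x : ℝ) ≤ (4 : ℝ) ^ ⌊Real.log x / 20⌋₊ := by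
    rw [QQ]
    exact_mod_cast primorial_le_four_pow _
  refine h1.trans ?_
  have h2 : (4 : ℝ) ^ ⌊Real.log x / 20⌋₊ = Real.exp ((⌊Real.log x / 20⌋₊ : ℝ) * Real.log 4) := by
    rw [mul_comm, Real.exp_mul, Real.exp_log (by norm_num), Real.rpow_natCast]
  rw [h2]
  apply Real.exp_le_exp.2
  have h3 : (⌊Real.log x / 20⌋₊ : ℝ) ≤ Real.log x / 20 := Nat.floor_le (by positivity)
  have h4 : Real.log 4 ≤ 14 / 10 := by
    have : Real.log 4 = 2 * Real.log 2 := by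
      rw [show (4 : ℝ) = 2 ^ 2 by norm_num, Real.log_pow]; norm_num
    rw [this]
    linarith [Real.log_two_lt_d9]
  have h5 : 0 ≤ Real.log 4 := Real.log_nonneg (by norm_num)
  calc (⌊Real.log x / 20⌋₊ : ℝ) * Real.log 4 ≤ Real.log x / 20 * (14 / 10) :=
        mul_le_mul h3 h4 h5 (by positivity)
    _ = 7 / 100 * Real.log x := by ring

/-- the density of the rough integers, split -/
lemma pr_split {y Y z : ℕ} (h1 : y ≤ Y) (h2 : Y ≤ z) :
    pr y z = pr y Y ∪ pr Y z ∧ Disjoint (pr y Y) (pr Y z) := by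
  constructor
  · ext p
    rw [mem_union]
    simp only [Pool.Agent.Helper64.RR.mem_pr]
    constructor
    · rintro ⟨a, b, c⟩
      by_cases h : p ≤ Y
      · exact Or.inl ⟨a, h, c⟩
      · exact Or.inr ⟨by omega, b, c⟩
    · rintro (⟨a, b, c⟩ | ⟨a, b, c⟩)
      · exact ⟨a, by omega, c⟩
      · exact ⟨by omega, b, c⟩
  · rw [Finset.disjoint_left]
    intro p hp hp'
    have a := (mem_pr' hp).2.1
    have b := (mem_pr' hp').1
    omega

lemma om_range (y z : ℕ) : 0 ≤ om y z ∧ om y z ≤ 1 := by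
  have h := Pool.Agent.Helper74.PP.one_sub_sum_le_prod (pr y z) (fun p => 1 / (p : ℝ))
    (fun p _ => by positivity) (fun p hp => by
      have h3 : (1 : ℝ) ≤ p := by
        have := (mem_pr' hp).2.2.one_le
        exact_mod_cast this
      rw [div_le_one (by linarith)]
      exact h3)
  exact ⟨h.2.2, h.2.1⟩

lemma sum_two {β K y z : ℕ} {S : ℝ} (h1 : ∑ p ∈ pr y z, 1 / (p : ℝ) ≤ S)
    (hβK : β ≤ K) (hS : 0 ≤ S) :
    ∑ p ∈ pr y z, (β : ℝ) / ((p : ℝ) - 1) ≤ 2 * (K * S) := by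
  calc ∑ p ∈ pr y z, (β : ℝ) / ((p : ℝ) - 1) ≤ ∑ p ∈ pr y z, 2 * (β : ℝ) * (1 / (p : ℝ)) := by
        apply sum_le_sum
        intro p hp
        have h2 : (2 : ℝ) ≤ p := by exact_mod_cast (mem_pr' hp).2.2.two_le
        have hβ0 : (0 : ℝ) ≤ β := Nat.cast_nonneg _
        rw [mul_one_div, div_le_div_iff₀ (by linarith) (by linarith)]
        nlinarith
    _ = 2 * ((β : ℝ) * ∑ p ∈ pr y z, 1 / (p : ℝ)) := by
        rw [← mul_sum]
        ring
    _ ≤ _ := by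
        have := mulK hβK h1 hS
        linarith

/-- the number of terms -/
lemma pow_fact_le {S : ℝ} (hS : 0 ≤ S) (n : ℕ) :
    S ^ n / (n.factorial : ℝ) ≤ Real.exp (3 * S - n) := by
  have h1 := Real.pow_div_factorial_le_exp (Real.exp 1 * S) (by positivity) n
  have h2 : S ^ n / (n.factorial : ℝ) =
      Real.exp (-(n : ℝ)) * ((Real.exp 1 * S) ^ n / (n.factorial : ℝ)) := by
    rw [mul_pow]
    have h3 : Real.exp 1 ^ n = Real.exp n := by rw [← Real.exp_nat_mul, mul_one]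
    rw [h3]
    have h4 : Real.exp (-(n : ℝ)) * Real.exp n = 1 := by
      rw [← Real.exp_add]
      simp
    calc S ^ n / (n.factorial : ℝ) = 1 * (S ^ n / (n.factorial : ℝ)) := by ring
      _ = Real.exp (-(n : ℝ)) * Real.exp n * (S ^ n / (n.factorial : ℝ)) := by rw [h4]
      _ = _ := by ring
  rw [h2]
  calc Real.exp (-(n : ℝ)) * ((Real.exp 1 * S) ^ n / (n.factorial : ℝ))
      ≤ Real.exp (-(n : ℝ)) * Real.exp (Real.exp 1 * S) :=
        mul_le_mul_of_nonneg_left h1 (Real.exp_pos _).le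
    _ ≤ _ := by
        rw [← Real.exp_add]
        apply Real.exp_le_exp.2
        have h3 : Real.exp 1 ≤ 3 := by linarith [Real.exp_one_lt_d9]
        nlinarith

/-- the last step -/
lemma fin_ineq {R P σ w N η a b c d : ℝ} (hP : 0 ≤ P) (hN : 0 ≤ N) (hη : 0 ≤ η)
    (hσ : (1 - η) * w ≤ σ) (hR : σ * P - (a + b + c + d) ≤ R)
    (ha : a ≤ η / 8 * N) (hb : b ≤ η / 4 * N) (hc : c ≤ η / 8 * N) (hd : d ≤ η / 8 * N) :
    (1 - η) * (w * P) - η * N ≤ R := by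
  have h1 : (1 - η) * w * P ≤ σ * P := mul_le_mul_of_nonneg_right hσ hP
  have h2 : 0 ≤ η * N := mul_nonneg hη hN
  nlinarith

/-- the sizes of the parameters -/
structure Sz (ART K : ℕ) (κ C η L : ℝ) (E z x y y2 r : ℕ) : Prop where
  h33 : 33 ≤ y
  hyy2 : y ≤ y2
  hy2z : y2 ≤ z
  h32 : 32 * y ≤ x
  hlx : Real.log x = Real.exp L
  hr1 : 1 ≤ r
  hr3 : (E : ℝ) / 32 ≤ (r : ℝ) + 1
  hpow : (QQ x * z ^ (2 * r)) ^ 4 ≤ x
  hS : ∑ p ∈ pr y z, 1 / (p : ℝ) ≤ L + C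
  hS1 : ∑ p ∈ pr y y2, 1 / (p : ℝ) ≤ Real.log L + C
  hS1' : ∑ p ∈ pr y y2, 1 / (p : ℝ) ≤ L + C
  hS2 : ∑ p ∈ pr y2 z, 1 / (p : ℝ) ≤ L + C
  homE : κ * Real.exp (-L) ≤ om y z / E
  hom2 : κ / L ≤ om y y2
  hXX : (x : ℝ) / (QQ x : ℝ) / 2 ≤ XI (x / 32) x (QQ x)
  hXlow : Real.exp (93 / 100 * Real.exp L) ≤ (x : ℝ) / (QQ x : ℝ)
  hX50a : (x : ℝ) ^ (-(1 / 50) : ℝ) ≤ Real.exp (-L ^ 2)
  hX50b : (x : ℝ) ^ (-(1 / 50) : ℝ) ≤ Real.exp (-(((ART + 2 : ℕ) : ℝ) * L))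
  hiY : 1 / (y2 : ℝ) ≤ 2 * Real.exp (-L ^ 2)
  hiy : 1 / (y : ℝ) ≤ Real.exp (-(((ART + 2 : ℕ) : ℝ) * L))
  hz4 : ∀ β : ℕ, β ≤ y → ((β : ℝ) * z) ^ (2 * r + 2) ≤ Real.exp (1 / 4 * Real.exp L)
  hKy : 12 * (K : ℝ) ^ 2 ≤ η * y

lemma sizes1 {c κ : ℝ} (hc : ∀ y z : ℕ, 2 ≤ y → y ≤ z →
      c * (Real.log y / Real.log z) ≤ om y z) (hκ0 : 0 < κ) (hκc : κ ≤ c) {L : ℝ}
    {E z y y2 : ℕ} (hE0 : (0 : ℝ) < E) (h33 : 33 ≤ y) (hyy2 : y ≤ y2) (hy2z : y2 ≤ z)
    (hL0 : 1 ≤ L) (hlogy : L ≤ Real.log y) (hlz : (E : ℝ) * Real.log z ≤ Real.exp L)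
    (hlogy2 : Real.log y2 ≤ L ^ 2) :
    κ * Real.exp (-L) ≤ om y z / E ∧ κ / L ≤ om y y2 := by
  have hy0 : (0 : ℝ) < y := by exact_mod_cast (by omega : 0 < y)
  have hy20 : (0 : ℝ) < y2 := by exact_mod_cast (by omega : 0 < y2)
  have h1 : Real.log y ≤ Real.log z := Real.log_le_log hy0 (by exact_mod_cast hyy2.trans hy2z)
  have h2 : Real.log y ≤ Real.log y2 := Real.log_le_log hy0 (by exact_mod_cast hyy2)
  have hlogz : 0 < Real.log z := by linarith
  have hlogy20 : 0 < Real.log y2 := by linarith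
  constructor
  · rw [le_div_iff₀ hE0]
    refine le_trans ?_ (hc y z (by omega) (hyy2.trans hy2z))
    have h3 : κ * Real.exp (-L) * E ≤ κ * (Real.log y / Real.log z) := by
      rw [mul_assoc]
      apply mul_le_mul_of_nonneg_left _ hκ0.le
      rw [le_div_iff₀ hlogz]
      calc Real.exp (-L) * E * Real.log z = Real.exp (-L) * (E * Real.log z) := by ring
        _ ≤ Real.exp (-L) * Real.exp L := mul_le_mul_of_nonneg_left hlz (Real.exp_pos _).le
        _ = 1 := by rw [← Real.exp_add]; simp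
        _ ≤ _ := by linarith
    refine h3.trans (mul_le_mul_of_nonneg_right hκc ?_)
    exact div_nonneg (by linarith) hlogz.le
  · refine le_trans ?_ (hc y y2 (by omega) hyy2)
    have h3 : 1 / L ≤ Real.log y / Real.log y2 := by
      rw [div_le_div_iff₀ (by linarith) hlogy20]
      have h4 : L * L ≤ Real.log y * L := mul_le_mul_of_nonneg_right hlogy (by linarith)
      linarith [h4, hlogy2, sq L]
    calc κ / L = κ * (1 / L) := by ring
      _ ≤ κ * (Real.log y / Real.log y2) := mul_le_mul_of_nonneg_left h3 hκ0.le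
      _ ≤ _ := by
          apply mul_le_mul_of_nonneg_right hκc
          exact div_nonneg (by linarith) hlogy20.le

lemma sizes2 {C : ℝ} (hC : 0 < C) (hME : ∀ y z : ℕ, 2 ≤ y → y ≤ z →
      ∑ p ∈ pr y z, 1 / (p : ℝ) ≤ Real.log (Real.log z / Real.log y) + C / Real.log y) {L : ℝ}
    {z y y2 : ℕ} (h33 : 33 ≤ y) (hyy2 : y ≤ y2) (hy2z : y2 ≤ z)
    (hL0 : 1 ≤ L) (hlogy : L ≤ Real.log y) (hlz : Real.log z ≤ Real.exp L)
    (hlogy2 : Real.log y2 ≤ L ^ 2) :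
    ∑ p ∈ pr y z, 1 / (p : ℝ) ≤ L + C ∧ ∑ p ∈ pr y y2, 1 / (p : ℝ) ≤ Real.log L + C ∧
    ∑ p ∈ pr y y2, 1 / (p : ℝ) ≤ L + C ∧ ∑ p ∈ pr y2 z, 1 / (p : ℝ) ≤ L + C := by
  have hy0 : (0 : ℝ) < y := by exact_mod_cast (by omega : 0 < y)
  have h1 : Real.log y ≤ Real.log z := Real.log_le_log hy0 (by exact_mod_cast hyy2.trans hy2z)
  have h2 : Real.log y ≤ Real.log y2 := Real.log_le_log hy0 (by exact_mod_cast hyy2)
  have hly : 0 < Real.log y := by linarith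
  have hCy : C / Real.log y ≤ C := div_le_self hC.le (by linarith)
  have hSz : ∑ p ∈ pr y z, 1 / (p : ℝ) ≤ L + C := by
    have h3 := hME y z (by omega) (hyy2.trans hy2z)
    have h4 : Real.log (Real.log z / Real.log y) ≤ L := by
      rw [Real.log_le_iff_le_exp (div_pos (by linarith) hly)]
      exact (div_le_self (by linarith) (by linarith)).trans hlz
    linarith
  have hS1 : ∑ p ∈ pr y y2, 1 / (p : ℝ) ≤ Real.log L + C := by
    have h3 := hME y y2 (by omega) hyy2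
    have h4 : Real.log (Real.log y2 / Real.log y) ≤ Real.log L := by
      apply Real.log_le_log (div_pos (by linarith) hly)
      rw [div_le_iff₀ hly]
      have h5 : L * L ≤ L * Real.log y := mul_le_mul_of_nonneg_left hlogy (by linarith)
      linarith [h5, hlogy2, sq L]
    linarith
  have hlogL : Real.log L ≤ L := by
    have := Real.log_le_sub_one_of_pos (show 0 < L by linarith)
    linarith
  refine ⟨hSz, hS1, by linarith, ?_⟩
  refine le_trans ?_ hSz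
  exact sum_le_sum_of_subset_of_nonneg (pr_mono hyy2 le_rfl) fun p _ _ => by positivity

lemma sizes3 {L : ℝ} {E z x r : ℕ} (hE : 2000 ≤ E) (hz0 : (0 : ℝ) < z) (hlz0 : 0 ≤ Real.log z)
    (hlx : (E : ℝ) * Real.log z ≤ Real.exp L) (hr : r = E / 32)
    (hQ : (QQ x : ℝ) ≤ Real.exp (7 / 100 * Real.exp L)) (hxe : (x : ℝ) = Real.exp (Real.exp L)) :
    (QQ x * z ^ (2 * r)) ^ 4 ≤ x ∧
    (∀ β : ℕ, β ≤ z → ((β : ℝ) * z) ^ (2 * r + 2) ≤ Real.exp (1 / 4 * Real.exp L)) ∧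
    Real.exp (93 / 100 * Real.exp L) ≤ (x : ℝ) / (QQ x : ℝ) := by
  have hr2 : 32 * r ≤ E := by omega
  have hr2' : 32 * (r : ℝ) ≤ E := by exact_mod_cast hr2
  have hE' : (2000 : ℝ) ≤ E := by exact_mod_cast hE
  have hzlog : ∀ n : ℕ, (z : ℝ) ^ n = Real.exp (n * Real.log z) := by
    intro n
    rw [Real.exp_nat_mul, Real.exp_log hz0]
  have hQpos : (0 : ℝ) < QQ x := by exact_mod_cast QQ_pos x
  have hrl : 32 * (r : ℝ) * Real.log z ≤ Real.exp L :=
    (mul_le_mul_of_nonneg_right hr2' hlz0).trans hlx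
  refine ⟨?_, ?_, ?_⟩
  · have h1 : ((QQ x : ℝ) * (z : ℝ) ^ (2 * r)) ^ 4 ≤ x := by
      have h2 : (QQ x : ℝ) * (z : ℝ) ^ (2 * r) ≤
          Real.exp (7 / 100 * Real.exp L + 1 / 16 * Real.exp L) := by
        rw [Real.exp_add, hzlog]
        apply mul_le_mul hQ _ (Real.exp_pos _).le (Real.exp_pos _).le
        apply Real.exp_le_exp.2
        push_cast
        linarith
      calc ((QQ x : ℝ) * (z : ℝ) ^ (2 * r)) ^ 4
          ≤ Real.exp (7 / 100 * Real.exp L + 1 / 16 * Real.exp L) ^ 4 :=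
            pow_le_pow_left₀ (by positivity) h2 4
        _ = Real.exp (4 * (7 / 100 * Real.exp L + 1 / 16 * Real.exp L)) := by
            rw [← Real.exp_nat_mul]
            norm_num
        _ ≤ Real.exp (Real.exp L) := by
            apply Real.exp_le_exp.2
            linarith [Real.exp_pos L]
        _ = x := hxe.symm
    exact_mod_cast h1
  · intro β hβ
    have h1 : (β : ℝ) ≤ z := by exact_mod_cast hβ
    calc ((β : ℝ) * z) ^ (2 * r + 2) ≤ ((z : ℝ) * z) ^ (2 * r + 2) := by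
          apply pow_le_pow_left₀ (by positivity)
          exact mul_le_mul_of_nonneg_right h1 hz0.le
      _ = (z : ℝ) ^ (4 * r + 4) := by
          rw [← pow_two, ← pow_mul]
          congr 1
          ring
      _ = Real.exp ((4 * r + 4 : ℕ) * Real.log z) := hzlog _
      _ ≤ _ := by
          apply Real.exp_le_exp.2
          push_cast
          have h2 : 32 * Real.log z ≤ Real.exp L :=
            (mul_le_mul_of_nonneg_right (by linarith) hlz0).trans hlx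
          linarith
  · rw [le_div_iff₀ hQpos]
    calc Real.exp (93 / 100 * Real.exp L) * QQ x
        ≤ Real.exp (93 / 100 * Real.exp L) * Real.exp (7 / 100 * Real.exp L) :=
          mul_le_mul_of_nonneg_left hQ (Real.exp_pos _).le
      _ = x := by
          rw [← Real.exp_add, hxe]
          congr 1
          ring

lemma sizes {ART : ℕ} {c C κ η Λ : ℝ} (hc : ∀ y z : ℕ, 2 ≤ y → y ≤ z →
      c * (Real.log y / Real.log z) ≤ om y z) (hκ0 : 0 < κ) (hκc : κ ≤ c)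
    (hC : 0 < C) (hME : ∀ y z : ℕ, 2 ≤ y → y ≤ z →
      ∑ p ∈ pr y z, 1 / (p : ℝ) ≤ Real.log (Real.log z / Real.log y) + C / Real.log y)
    (hη : 0 < η) {A K W : ℕ} (hW : 7 * K + 1 + ART + (ART + 2) + A ≤ W)
    (hΛ : 0 ≤ Λ) (h48 : 48 * (K : ℝ) ^ 2 ≤ η * Real.exp Λ)
    {E z x y : ℕ} (hE : 2000 ≤ E) (hS : SrA A E z x y) (hyA : Real.log x ^ (ART + 2) ≤ y)
    {L : ℝ} (hL : L = Real.log (Real.log x))
    (H1 : 3 * Λ + 6 * K * Λ + W * L ≤ L ^ 2) (H2 : 32 ≤ L) (H2' : Λ ≤ L)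
    (H4 : 50 * L ^ 2 ≤ Real.exp L) :
    Sz ART K κ C η L E z x y ⌊Real.exp (L ^ 2)⌋₊ (E / 32) := by
  obtain ⟨hl1, hlx, -, hexp, hyu, hxp, hQ⟩ := parA A E z x y hE hS
  obtain ⟨hz1, hzE, -, hlog, -, hL3⟩ := hS
  rw [← hL] at hexp hyu hL3
  have hE' : (2000 : ℝ) ≤ E := by exact_mod_cast hE
  have hW' : 7 * (K : ℝ) + 1 + ART + (ART + 2) + A ≤ W := by exact_mod_cast hW
  have hKΛ : 0 ≤ (K : ℝ) * Λ := by positivity
  have hK0 : (0 : ℝ) ≤ K := Nat.cast_nonneg _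
  have hA0 : (0 : ℝ) ≤ A := Nat.cast_nonneg _
  have hR0 : (0 : ℝ) ≤ ART := Nat.cast_nonneg _
  have hL0 : 0 < L := by linarith
  have hWL' : (W : ℝ) ≤ L := by
    have h1 : (W : ℝ) * L ≤ L * L := by linarith [sq L]
    exact le_of_mul_le_mul_right h1 hL0
  have hA1 : (A : ℝ) * L ≤ L ^ 2 := by
    rw [sq]
    exact mul_le_mul_of_nonneg_right (by linarith) hL0.le
  have hA2 : ((ART + 2 : ℕ) : ℝ) * L ≤ L ^ 2 := by
    rw [sq]
    apply mul_le_mul_of_nonneg_right _ hL0.le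
    push_cast
    linarith
  have hz0 : (0 : ℝ) < z := lt_of_lt_of_le (Real.exp_pos _) hz1
  have hL2E : L ^ 2 ≤ E := by
    have h1 : 1 * L ^ 2 ≤ L * L ^ 2 := mul_le_mul_of_nonneg_right (by linarith) (sq_nonneg L)
    have h2 : L * L ^ 2 = L ^ 3 := by ring
    linarith
  have hyexp : Real.exp L ≤ y := by rw [hexp]; exact hlog
  have hy0 : (0 : ℝ) < y := lt_of_lt_of_le (Real.exp_pos _) hyexp
  have hely : (33 : ℝ) ≤ Real.exp L := by
    have := Real.add_one_le_exp L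
    linarith
  have hy33 : (33 : ℝ) ≤ y := by linarith
  have hy33' : 33 ≤ y := by exact_mod_cast hy33
  have hlogy : L ≤ Real.log y := by
    rw [Real.le_log_iff_exp_le hy0]
    exact hyexp
  set y2 : ℕ := ⌊Real.exp (L ^ 2)⌋₊ with hy2
  have hy2u : (y2 : ℝ) ≤ Real.exp (L ^ 2) := Nat.floor_le (Real.exp_pos _).le
  have hyy2 : y ≤ y2 := by
    apply Nat.le_floor
    exact hyu.trans (Real.exp_le_exp.2 hA1)
  have hy2z : y2 ≤ z := by
    have h1 : (y2 : ℝ) ≤ z := by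
      calc (y2 : ℝ) ≤ Real.exp (L ^ 2) := hy2u
        _ ≤ Real.exp E := Real.exp_le_exp.2 hL2E
        _ ≤ z := hz1
    exact_mod_cast h1
  have hyz : y ≤ z := hyy2.trans hy2z
  have hy2l : Real.exp (L ^ 2) / 2 ≤ y2 := by
    have h1 : Real.exp (L ^ 2) < (y2 : ℝ) + 1 := Nat.lt_floor_add_one _
    have h2 : (33 : ℝ) ≤ y2 := by exact_mod_cast hy33'.trans hyy2
    linarith
  have hy2pos : (0 : ℝ) < y2 := lt_of_lt_of_le (by positivity) hy2l
  have hzx : 32 * y ≤ x := by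
    calc 32 * y ≤ z * z := Nat.mul_le_mul (by omega) hyz
      _ = z ^ 2 := by ring
      _ ≤ z ^ E := Nat.pow_le_pow_right (by omega) (by omega)
      _ ≤ x := hzE
  have hxr : (0 : ℝ) < x := by exact_mod_cast hxp
  have hlx0 : Real.log x = Real.exp L := hexp.symm
  have hxe : (x : ℝ) = Real.exp (Real.exp L) := by rw [hexp, Real.exp_log hxr]
  rw [hlx0] at hlx hQ
  have hlz0 : 0 ≤ Real.log z := by linarith
  have hQpos : (0 : ℝ) < QQ x := by exact_mod_cast QQ_pos x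
  obtain ⟨hpow, hz4, hXlow⟩ := sizes3 (r := E / 32) hE hz0 hlz0 hlx rfl hQ hxe
  have hlogy2 : Real.log y2 ≤ L ^ 2 := by
    rw [Real.log_le_iff_le_exp hy2pos]
    exact hy2u
  obtain ⟨homE, hom2⟩ := sizes1 hc hκ0 hκc (by linarith) hy33' hyy2 hy2z (by linarith) hlogy hlx
    hlogy2
  have hlz1 : Real.log z ≤ Real.exp L := by
    refine le_trans ?_ hlx
    exact le_mul_of_one_le_left hlz0 (by linarith)
  obtain ⟨s1, s2, s3, s4⟩ := sizes2 hC hME hy33' hyy2 hy2z (by linarith) hlogy hlz1 hlogy2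
  have hX50e : (x : ℝ) ^ (-(1 / 50) : ℝ) = Real.exp (-(1 / 50 * Real.exp L)) := by
    rw [Real.rpow_def_of_pos hxr, hlx0]
    congr 1
    ring
  refine ⟨hy33', hyy2, hy2z, hzx, hlx0, by omega, ?_, hpow, s1, s2, s3, s4, homE, hom2, ?_, hXlow,
    ?_, ?_, ?_, ?_, fun β hβ => hz4 β (hβ.trans hyz), ?_⟩
  · have : E ≤ 32 * (E / 32 + 1) := by omega
    have h2 : (E : ℝ) ≤ 32 * (((E / 32 : ℕ) : ℝ) + 1) := by exact_mod_cast this
    linarith
  · unfold XI
    rw [div_div, mul_comm ((QQ x : ℕ) : ℝ) 2, ← div_div]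
    apply div_le_div_of_nonneg_right _ hQpos.le
    have h1 : x ≤ 2 * (x - x / 32) := by omega
    have h2 : (x : ℝ) ≤ 2 * ((x - x / 32 : ℕ) : ℝ) := by exact_mod_cast h1
    linarith
  · rw [hX50e]
    apply Real.exp_le_exp.2
    linarith
  · rw [hX50e]
    apply Real.exp_le_exp.2
    linarith
  · rw [div_le_iff₀ hy2pos]
    have h3 : Real.exp (-L ^ 2) * Real.exp (L ^ 2) = 1 := by
      rw [← Real.exp_add]
      simp
    have h4 : 2 * Real.exp (-L ^ 2) * (Real.exp (L ^ 2) / 2) ≤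
        2 * Real.exp (-L ^ 2) * y2 := mul_le_mul_of_nonneg_left hy2l (by positivity)
    linarith
  · rw [Real.exp_neg, ← one_div]
    apply one_div_le_one_div_of_le (Real.exp_pos _)
    refine le_trans (le_of_eq ?_) hyA
    rw [Real.exp_nat_mul, hexp]
  · have h1 : η * Real.exp Λ ≤ η * y :=
      mul_le_mul_of_nonneg_left ((Real.exp_le_exp.2 H2').trans hyexp) hη.le
    have h2 : 0 ≤ (K : ℝ) ^ 2 := by positivity
    linarith

lemma near_mul {s1 s2 P1 P2 τ η w : ℝ} (h1 : |s1 - P1| ≤ τ) (h2 : |s2 - P2| ≤ τ)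
    (hP10 : 0 ≤ P1) (hP1 : P1 ≤ 1) (hP20 : 0 ≤ P2) (hP2 : P2 ≤ 1) (hτ0 : 0 ≤ τ) (hτ : τ ≤ 1)
    (h3 : 3 * τ ≤ η / 2 * w) (h4 : (1 - η / 2) * w ≤ P1 * P2) : (1 - η) * w ≤ s1 * s2 := by
  have e1 : s1 * s2 = P1 * P2 + (s1 - P1) * P2 + P1 * (s2 - P2) + (s1 - P1) * (s2 - P2) := by
    ring
  have e2 : -τ ≤ (s1 - P1) * P2 := by
    have h5 : |(s1 - P1) * P2| ≤ τ * 1 := by
      rw [abs_mul, abs_of_nonneg hP20]
      exact mul_le_mul h1 hP2 hP20 hτ0
    have := (abs_le.1 h5).1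
    linarith
  have e3 : -τ ≤ P1 * (s2 - P2) := by
    have h5 : |P1 * (s2 - P2)| ≤ 1 * τ := by
      rw [abs_mul, abs_of_nonneg hP10]
      exact mul_le_mul hP1 h2 (abs_nonneg _) (by norm_num)
    have := (abs_le.1 h5).1
    linarith
  have e4 : -τ ≤ (s1 - P1) * (s2 - P2) := by
    have h5 : |(s1 - P1) * (s2 - P2)| ≤ τ * 1 := by
      rw [abs_mul]
      exact mul_le_mul h1 (h2.trans hτ) (abs_nonneg _) hτ0
    have := (abs_le.1 h5).1
    linarith
  linarith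

/-- the main term -/
lemma sig {ART K W β : ℕ} {κ C η L Λ : ℝ} {E z x y y2 r : ℕ}
    (hs : Sz ART K κ C η L E z x y y2 r) (hβ : 1 ≤ β) (hβK : β ≤ K) (hη : 0 < η) (hη1 : η ≤ 1)
    (hκ0 : 0 < κ) (hC : 0 < C) (hE : (0 : ℝ) < E) (hL3 : L ^ 3 ≤ E) (H2 : 32 ≤ L)
    (hΛ : 0 ≤ Λ) (hCΛ : C ≤ Λ) (h48 : 48 * (K : ℝ) ^ 2 ≤ η * Real.exp Λ)
    (hκΛ : Real.exp (-Λ) ≤ κ ^ (K + 1)) (hW : 7 * K + 1 ≤ W)
    (H1 : 3 * Λ + 6 * K * Λ + W * L ≤ L ^ 2)
    (hw : κ ^ (K + 1) * Real.exp (-(K * L)) ≤ om y z ^ β) :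
    (1 - η) * om y z ^ β ≤ sgm β (pr y y2) r * sgm β (pr y2 z) r ∧
    |sgm β (pr y2 z) r| ≤ 2 * om y2 z ^ β ∧
    om y2 z ^ β * κ ^ β ≤ om y z ^ β * L ^ β := by
  have hL0 : 0 < L := by linarith
  have hLC : 0 ≤ L + C := by linarith
  have hyy2 := hs.hyy2
  have hy2z := hs.hy2z
  have h33 := hs.h33
  have hy0 : (0 : ℝ) < y := by exact_mod_cast (by omega : 0 < y)
  obtain ⟨hom0, hom1⟩ := om_range y z
  have hw0 : 0 ≤ om y z ^ β := by positivity
  have hw1 : om y z ^ β ≤ 1 := pow_le_one₀ hom0 hom1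
  have hL3' : L ^ 3 / 32 ≤ (E : ℝ) / 32 := by linarith
  obtain ⟨hτ1, hτ2⟩ := e5 (K := K) (W := W) (τ := Real.exp (6 * K * (L + C) - E / 32)) H2 hΛ hCΛ
    (hβ.trans hβK) hL3' le_rfl hη.le hη1 h48 hκΛ hW H1 hw
  set τ : ℝ := Real.exp (6 * K * (L + C) - E / 32) with hτ
  have hτ0 : 0 ≤ τ := (Real.exp_pos _).le
  have hβK' : (β : ℝ) ≤ K := by exact_mod_cast hβK
  have hβ0' : (0 : ℝ) ≤ β := Nat.cast_nonneg _
  have hβsq : (β : ℝ) ^ 2 ≤ (K : ℝ) ^ 2 := pow_le_pow_left₀ hβ0' hβK' 2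
  have hηy : 12 * (β : ℝ) ^ 2 ≤ η * y := by linarith [hs.hKy]
  have hβy : 6 * β ^ 2 ≤ y := by
    have h1 : η * y ≤ 1 * y := mul_le_mul_of_nonneg_right hη1 hy0.le
    have : 6 * (β : ℝ) ^ 2 ≤ y := by linarith [sq_nonneg (β : ℝ)]
    exact_mod_cast this
  have hβy' : β + 2 ≤ y := by nlinarith
  obtain ⟨hP10, hP11⟩ := prod_up (β := β) (I := pr y y2)
    (fun p hp => by have := (mem_pr' hp).1; omega)
  obtain ⟨hP20, hP21⟩ := prod_up (β := β) (I := pr y2 z)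
    (fun p hp => by have := (mem_pr' hp).1; omega)
  change _ ≤ om y y2 ^ β at hP11
  change _ ≤ om y2 z ^ β at hP21
  obtain ⟨ho10, ho11⟩ := om_range y y2
  obtain ⟨ho20, ho21⟩ := om_range y2 z
  have hsplit := pr_split hyy2 hy2z
  have homs : om y z = om y y2 * om y2 z := by
    unfold om
    rw [hsplit.1, prod_union hsplit.2]
  have hlow := prod_low (β := β) (y := y) (z := z) hβ hβy
  rw [hsplit.1, prod_union hsplit.2] at hlow
  have hη6 : 6 * (β : ℝ) ^ 2 / y ≤ η / 2 := by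
    rw [div_le_iff₀ hy0]
    linarith
  have hlow2 : (1 - η / 2) * om y z ^ β ≤ (∏ p ∈ pr y y2, (1 - (β : ℝ) / ((p : ℝ) - 1))) *
      ∏ p ∈ pr y2 z, (1 - (β : ℝ) / ((p : ℝ) - 1)) := by
    refine le_trans ?_ hlow
    rw [mul_comm]
    exact mul_le_mul_of_nonneg_left (by linarith) hw0
  have hn1 : |sgm β (pr y y2) r - ∏ p ∈ pr y y2, (1 - (β : ℝ) / ((p : ℝ) - 1))| ≤ τ := by
    have h1 := sgm_near β (pr y y2) r (fun p hp => (mem_pr' hp).2.2)
    refine h1.trans (Real.exp_le_exp.2 ?_)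
    have h2 := sum_two (β := β) (K := K) hs.hS1' hβK hLC
    have h3 := hs.hr3
    linarith
  have hn2 : |sgm β (pr y2 z) r - ∏ p ∈ pr y2 z, (1 - (β : ℝ) / ((p : ℝ) - 1))| ≤ τ := by
    have h1 := sgm_near β (pr y2 z) r (fun p hp => (mem_pr' hp).2.2)
    refine h1.trans (Real.exp_le_exp.2 ?_)
    have h2 := sum_two (β := β) (K := K) hs.hS2 hβK hLC
    have h3 := hs.hr3
    linarith
  have hP1le := hP11.trans (pow_le_one₀ ho10 ho11)
  have hP2le := hP21.trans (pow_le_one₀ ho20 ho21)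
  refine ⟨near_mul hn1 hn2 hP10 hP1le hP20 hP2le hτ0 (hτ2.trans hw1) hτ1 hlow2, ?_, ?_⟩
  · have hww2 : om y z ^ β ≤ om y2 z ^ β := by
      apply pow_le_pow_left₀ hom0
      rw [homs]
      exact mul_le_of_le_one_left ho20 ho11
    have h3 := abs_le.1 hn2
    rw [abs_le]
    constructor <;> linarith
  · rw [← mul_pow, ← mul_pow]
    apply pow_le_pow_left₀ (by positivity)
    rw [homs]
    have h2 := hs.hom2
    rw [div_le_iff₀ hL0] at h2
    calc om y2 z * κ ≤ om y2 z * (om y y2 * L) := mul_le_mul_of_nonneg_left h2 ho20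
      _ = _ := by ring

/-- the main case -/
lemma main {ART x0 x1 : ℕ} (hRT : RTs ART x0) (hPW : PWs x1) (hBF : StmtBF)
    {C κ η Λ : ℝ} (hκ0 : 0 < κ) (hκ1 : κ ≤ 1) (hC : 0 < C)
    (hη : 0 < η) (hη1 : η ≤ 1) {K W : ℕ} (hW : 7 * K + 1 + ART ≤ W)
    (hΛ : 0 ≤ Λ) (hCΛ : C ≤ Λ) (h48 : 48 * (K : ℝ) ^ 2 ≤ η * Real.exp Λ)
    (hκΛ : Real.exp (-Λ) ≤ κ ^ (K + 1)) {E z x y y2 r b j : ℕ} (hE : 2000 ≤ E) (hx0 : x0 ≤ x)
    (hx1 : x1 ≤ x) (hlog : Real.log x ≤ y) (hb : b < QQ x)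
    {B : Finset ℕ} (hB : B ⊆ Icc 1 y) (hBK : B.card ≤ K) (hβ : 1 ≤ B.card) (hj : j ∈ Icc 1 y)
    (hjB : j ∉ B) (hco : Nat.Coprime (b + j) (QQ x)) {L : ℝ} (hL3 : L ^ 3 ≤ E)
    (hs : Sz ART K κ C η L E z x y y2 r)
    (H1 : 3 * Λ + 6 * K * Λ + W * L ≤ L ^ 2) (H2 : 32 ≤ L)
    (H3 : Real.exp (2 * Λ + 3 * K * Λ) * L ^ (4 * K) ≤ Real.exp L)
    (H4 : 50 * L ^ 2 ≤ Real.exp L) :
    (1 - η) * (om y z ^ B.card * ∑ n ∈ NI (x / 32) x (QQ x) b, pw x (n + j))
      - η * (XI (x / 32) x (QQ x) * (om y z / E) * om y z ^ B.card)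
    ≤ ∑ n ∈ NI (x / 32) x (QQ x) b, (if ∀ i ∈ B, Rg y z (n + i) then pw x (n + j) else 0) := by
  have hE0 : (0 : ℝ) < E := by exact_mod_cast (by omega : 0 < E)
  have hE1 : (1 : ℝ) ≤ E := by exact_mod_cast (by omega : 1 ≤ E)
  have hK1 : 1 ≤ K := hβ.trans hBK
  have hL0 : 0 < L := by linarith
  have hLC : 0 ≤ L + C := by linarith
  have hL3' : L ^ 3 / 32 ≤ (E : ℝ) / 32 := by linarith
  have h33 := hs.h33
  obtain ⟨hom0, hom1⟩ := om_range y z
  have homE := hs.homE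
  have hom : κ * Real.exp (-L) ≤ om y z := homE.trans (div_le_self hom0 hE1)
  have hκL0 : 0 ≤ κ * Real.exp (-L) := by positivity
  have hw0 : 0 ≤ om y z ^ B.card := by positivity
  have hwl : (κ * Real.exp (-L)) ^ K ≤ om y z ^ B.card :=
    (pow_le_pow_of_le_one hκL0 (hom.trans hom1) hBK).trans (pow_le_pow_left₀ hκL0 hom _)
  have hexpK : Real.exp (-L) ^ K = Real.exp (-(K * L)) := by
    rw [← Real.exp_nat_mul]
    congr 1
    ring
  have hwl2 : κ ^ (K + 1) * Real.exp (-(K * L)) ≤ om y z ^ B.card := by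
    refine le_trans ?_ hwl
    rw [mul_pow, hexpK, pow_succ]
    apply mul_le_mul_of_nonneg_right _ (Real.exp_pos _).le
    exact mul_le_of_le_one_right (by positivity) hκ1
  obtain ⟨hσ, hs2w, hcκL⟩ := sig (W := W) hs hβ hBK hη hη1 hκ0 hC hE0 hL3 H2 hΛ hCΛ h48 hκΛ
    (by omega) H1 hwl2
  have hwl3 : κ ^ (K + 1) * Real.exp (-((K + 1) * L)) ≤ om y z / E * om y z ^ B.card := by
    calc κ ^ (K + 1) * Real.exp (-((K + 1) * L))
        = (κ * Real.exp (-L)) * (κ * Real.exp (-L)) ^ K := by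
          rw [mul_pow, hexpK, pow_succ]
          have : Real.exp (-((K + 1) * L)) = Real.exp (-L) * Real.exp (-(K * L)) := by
            rw [← Real.exp_add]
            congr 1
            ring
          rw [this]
          ring
      _ ≤ _ := mul_le_mul homE hwl (by positivity) (div_nonneg hom0 hE0.le)
  have hXX := hs.hXX
  have hX0 : 0 ≤ (x : ℝ) / (QQ x : ℝ) := by positivity
  set X : ℝ := (x : ℝ) / (QQ x : ℝ) with hX
  have hXI0 : 0 ≤ XI (x / 32) x (QQ x) := le_trans (by positivity) hXX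
  have homE0 : 0 ≤ om y z / E := div_nonneg hom0 hE0.le
  have hN0 : 0 ≤ XI (x / 32) x (QQ x) * (om y z / E) * om y z ^ B.card := by positivity
  have hN1 : X / 2 * (κ ^ (K + 1) * Real.exp (-((K + 1) * L))) ≤
      XI (x / 32) x (QQ x) * (om y z / E) * om y z ^ B.card := by
    rw [mul_assoc (XI (x / 32) x (QQ x))]
    exact mul_le_mul hXX hwl3 (by positivity) hXI0
  have hN2 : X / 2 * (κ * Real.exp (-L) * om y z ^ B.card) ≤
      XI (x / 32) x (QQ x) * (om y z / E) * om y z ^ B.card := by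
    rw [mul_assoc (XI (x / 32) x (QQ x))]
    exact mul_le_mul hXX (mul_le_mul_of_nonneg_right homE hw0) (by positivity) hXI0
  have hX50p : 0 ≤ (x : ℝ) ^ (-(1 / 50) : ℝ) := by positivity
  -- the function PW
  have hF0 : PW x b j B ∅ = ∑ n ∈ NI (x / 32) x (QQ x) b, pw x (n + j) := by
    unfold PW
    apply sum_congr rfl
    intro n _
    simp
  have hF0' : 0 ≤ PW x b j B ∅ := by
    rw [hF0]
    exact sum_nonneg fun n _ => pw_nonneg _ _
  -- Bonferroni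
  have hSnn : 0 ≤ (B.card : ℝ) * ∑ p ∈ pr y z, 1 / (p : ℝ) := by positivity
  have hSle := mulK hBK hs.hS hLC
  have hT := pow_fact_le hSnn (r + 1)
  have hT2 : ((B.card : ℝ) * ∑ p ∈ pr y z, 1 / (p : ℝ)) ^ (r + 1) / ((r + 1).factorial : ℝ) ≤
      Real.exp (3 * K * (L + C) - E / 32) := by
    refine hT.trans (Real.exp_le_exp.2 ?_)
    push_cast
    have := hs.hr3
    linarith
  obtain ⟨hT3, hT4⟩ := e3 (K := K) (W := W) H2 hΛ hCΛ hK1 hL3' hT2 hη.le h48 hκΛ (by omega) H1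
  have hbf := hBF x y y2 z b j r (by have := hs.h32; omega) hlog hs.hyy2 hs.hy2z
    (by have := hs.hyy2; have := hs.hy2z; omega) hb B hB _ rfl hT4
  have hex := expand B.card (pr y y2) (pr y2 z) r (fun A => PW x b j B A)
  have hE1 := step2 hRT hPW (b := b) (j := j) (r := r) hx0 hx1 hlog hs.h32 hb hco hj hB hjB hβ
    (by omega : 2 ≤ y) hs.hyy2 hs.hy2z hs.hr1 hs.hpow
  have hE2 := step hRT hPW (b := b) (j := j) (r := r) (A₁ := ∅) hx0 hx1 hlog hs.h32 hb hco hj hB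
    hjB hβ (by omega : 2 ≤ y) le_rfl hs.hyy2 hs.hy2z hs.hr1 hs.hpow (empty_subset _) (by simp)
  have hE1a := e1 (K := K) (β := B.card) (ART := ART) (W := W) (L := L) (Λ := Λ) (D := C) (X := X)
      (S1 := ∑ p ∈ pr y y2, 1 / (p : ℝ)) (S2 := ∑ p ∈ pr y2 z, 1 / (p : ℝ)) (iY := 1 / (y2 : ℝ))
      (X50 := (x : ℝ) ^ (-(1 / 50) : ℝ)) (η := η) (κ := κ) hβ hBK hX0 hL0.le hΛ hCΛ hs.hS1' hs.hS2
      (by positivity) hX50p hs.hiY hs.hX50a hη.le h48 hκΛ (by omega) H1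
  rw [hs.hlx] at hE1 hE2
  have hE1' := hE1.trans hE1a
  have hE2' : ∑ A₁ ∈ Fa (pr y y2) r, |PW x b j B A₁ - gt B.card A₁ * PW x b j B ∅| ≤
      B.card * Real.exp (3 * B.card * ∑ p ∈ pr y y2, 1 / (p : ℝ)) * X *
        Real.exp L ^ ART * (1 / (y : ℝ) + (x : ℝ) ^ (-(1 / 50) : ℝ)) := by
    refine le_trans (le_of_eq ?_) (hE2.trans (le_of_eq ?_))
    · apply sum_congr rfl
      intro A₁ _
      simp
    · rw [card_empty, pow_zero, one_mul, prod_empty, mul_one]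
  have hE3 := e2 (K := K) (β := B.card) (ART := ART) (A0 := ART + 2) (L := L) (Λ := Λ) (D := C)
    (X := X) (S1 := ∑ p ∈ pr y y2, 1 / (p : ℝ)) (iy := 1 / (y : ℝ))
    (X50 := (x : ℝ) ^ (-(1 / 50) : ℝ)) (η := η) (κ := κ)
    (w := om y z ^ B.card) (w2 := om y2 z ^ B.card) hβ hBK hX0 (by linarith) hΛ hCΛ hs.hS1
    (by positivity) hX50p hs.hiy hs.hX50b hη.le
    hκ0 hκ1 h48 hκΛ rfl hw0 (pow_nonneg (om_range y2 z).1 _) hcκL H3
  have hE4 : |sgm B.card (pr y2 z) r| *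
      ∑ A₁ ∈ Fa (pr y y2) r, |PW x b j B A₁ - gt B.card A₁ * PW x b j B ∅| ≤
      η / 4 * (XI (x / 32) x (QQ x) * (om y z / E) * om y z ^ B.card) := by
    refine (mul_le_mul hs2w hE2' (sum_nonneg fun _ _ => abs_nonneg _)
      (mul_nonneg (by norm_num) (pow_nonneg (om_range y2 z).1 _))).trans (hE3.trans ?_)
    have h1 := mul_le_mul_of_nonneg_left hN2 (show 0 ≤ η / 4 by linarith)
    refine le_trans (le_of_eq ?_) h1
    ring
  have hE5 := e4 (K := K) (W := W) H2 hΛ hK1 hs.hXlow (hs.hz4 B.card (by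
    have h1 := card_le_card hB
    rw [Nat.card_Icc] at h1
    omega)) hη.le h48 hκΛ (by omega) H1 H4
  have hE6 : 3 * XI (x / 32) x (QQ x) *
      (((B.card : ℝ) * ∑ p ∈ pr y z, 1 / (p : ℝ)) ^ (r + 1) / ((r + 1).factorial : ℝ)) ≤
      η / 8 * (XI (x / 32) x (QQ x) * (om y z / E) * om y z ^ B.card) := by
    have h1 := mul_le_mul_of_nonneg_left (hT3.trans (mul_le_mul_of_nonneg_left hwl3
      (show 0 ≤ η / 8 by linarith))) hXI0
    refine le_trans (le_of_eq ?_) (h1.trans (le_of_eq ?_))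
    · ring
    · ring
  rw [← hF0]
  refine fin_ineq hF0' hN0 hη.le hσ ?_
    (hE1'.trans (mul_le_mul_of_nonneg_left hN1 (by linarith))) hE4 hE6
    (hE5.trans (mul_le_mul_of_nonneg_left hN1 (by linarith)))
  have h1 := (abs_le.1 hbf).1
  have h2 := (abs_le.1 hex).1
  unfold Fa at h2 ⊢
  linarith

/-- **MC-CBL** -/
theorem cbl : StmtRT → StmtPWA → StmtBF → StmtCBL := by
  intro hRT hPWA hBF
  obtain ⟨ART, x0, hRT⟩ := hRT
  obtain ⟨x1, hPW⟩ := hPWA
  obtain ⟨c, hc0, hc⟩ := Pool.Agent.Helper88.CR.om_lower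
  obtain ⟨C, hC, hME⟩ := Pool.Agent.Helper69.LG.me
  have hME' : ∀ y z : ℕ, 2 ≤ y → y ≤ z →
      ∑ p ∈ pr y z, 1 / (p : ℝ) ≤ Real.log (Real.log z / Real.log y) + C / Real.log y := by
    intro y z hy hyz
    have h1 := hME y z (by exact_mod_cast hy) (by exact_mod_cast hyz)
    have hset : (Icc 1 z).filter (fun p : ℕ => p.Prime ∧ (y : ℝ) < (p : ℝ)) = pr y z := by
      unfold pr
      ext p
      simp only [mem_filter, mem_Icc, mem_Ioc, Nat.cast_lt]
      constructor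
      · rintro ⟨⟨a, b⟩, c, d⟩
        exact ⟨⟨d, b⟩, c⟩
      · rintro ⟨⟨a, b⟩, c⟩
        exact ⟨⟨by omega, b⟩, c, a⟩
    rw [hset] at h1
    exact h1
  refine ⟨ART + 2, fun A K0 η hη => ?_⟩
  set K : ℕ := max K0 1 with hK
  set η' : ℝ := min η 1 with hη'
  have hη0 : 0 < η' := lt_min hη one_pos
  set κ : ℝ := min c 1 with hκ
  have hκ0 : 0 < κ := lt_min hc0 one_pos
  obtain ⟨Λ, hΛ0, hCΛ, h48, hκΛ⟩ := exΛ K η' κ C hη0 hκ0
  obtain ⟨L0, hL0⟩ := thr K (7 * K + 1 + ART + (ART + 2) + A) Λ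
  refine ⟨max 2000 (max x0 (max x1 ⌈Real.exp (L0 / 2)⌉₊)), ?_⟩
  intro E z x y hE hS hyA b hb B hB hBK j hj hjB
  have hE1 : 2000 ≤ E := (le_max_left _ _).trans hE
  have hE2 : x0 ≤ E := ((le_max_left _ _).trans (le_max_right _ _)).trans hE
  have hE3 : x1 ≤ E :=
    ((le_max_left _ _).trans ((le_max_right _ _).trans (le_max_right _ _))).trans hE
  have hE4 : ⌈Real.exp (L0 / 2)⌉₊ ≤ E :=
    ((le_max_right _ _).trans ((le_max_right _ _).trans (le_max_right _ _))).trans hE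
  obtain ⟨hl1, hlx, hLE, hexp, hyu, hxp, hQ⟩ := parA A E z x y hE1 hS
  have hEr : (2000 : ℝ) ≤ E := by exact_mod_cast hE1
  have hE4' : Real.exp (L0 / 2) ≤ E := (Nat.le_ceil _).trans (by exact_mod_cast hE4)
  have hL : L0 ≤ Real.log (Real.log x) := by
    have h1 : L0 / 2 ≤ Real.log E := by
      rw [Real.le_log_iff_exp_le (by linarith)]
      exact hE4'
    linarith
  obtain ⟨H1, H2, H2', H3, H4⟩ := hL0 _ hL
  have hEz : E ≤ z := by
    have h1 : (E : ℝ) ≤ z := by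
      have := Real.add_one_le_exp (E : ℝ)
      linarith [hS.1]
    exact_mod_cast h1
  have hzx : z ≤ x := by
    calc z = z ^ 1 := (pow_one z).symm
      _ ≤ z ^ E := Nat.pow_le_pow_right (by omega) (by omega)
      _ ≤ x := hS.2.1
  have hxx0 : x0 ≤ x := by omega
  have hxx1 : x1 ≤ x := by omega
  have hom := om_range y z
  have hM0 : 0 ≤ om y z ^ B.card * ∑ n ∈ NI (x / 32) x (QQ x) b, pw x (n + j) :=
    mul_nonneg (pow_nonneg hom.1 _) (sum_nonneg fun n _ => pw_nonneg _ _)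
  have hXI0 : 0 ≤ XI (x / 32) x (QQ x) := by unfold XI; positivity
  have hN0 : 0 ≤ XI (x / 32) x (QQ x) * (om y z / E) * om y z ^ B.card :=
    mul_nonneg (mul_nonneg hXI0 (div_nonneg hom.1 (by linarith))) (pow_nonneg hom.1 _)
  have hR0 : 0 ≤ ∑ n ∈ NI (x / 32) x (QQ x) b,
      (if ∀ i ∈ B, Rg y z (n + i) then pw x (n + j) else 0) := by
    apply sum_nonneg
    intro n _
    split_ifs
    · exact pw_nonneg _ _
    · exact le_rfl
  -- reduction to `η'`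
  have hred : (1 - η) * (om y z ^ B.card * ∑ n ∈ NI (x / 32) x (QQ x) b, pw x (n + j))
      - η * (XI (x / 32) x (QQ x) * (om y z / E) * om y z ^ B.card) ≤
      (1 - η') * (om y z ^ B.card * ∑ n ∈ NI (x / 32) x (QQ x) b, pw x (n + j))
      - η' * (XI (x / 32) x (QQ x) * (om y z / E) * om y z ^ B.card) := by
    have h1 : η' ≤ η := min_le_left _ _
    nlinarith
  refine hred.trans ?_
  by_cases hco : Nat.Coprime (b + j) (QQ x)
  swap
  · have hQ32 : QQ x ≤ x / 32 := by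
      rw [Nat.le_div_iff_mul_le (by norm_num)]
      have hxr : (0 : ℝ) < x := by exact_mod_cast hxp
      have h1 : (QQ x : ℝ) * 32 ≤ x := by
        have hlx2 : (100 : ℝ) ≤ Real.log x := by nlinarith
        calc (QQ x : ℝ) * 32 ≤ Real.exp (7 / 100 * Real.log x) * Real.exp (93 / 100 * Real.log x) := by
              apply mul_le_mul hQ _ (by norm_num) (Real.exp_pos _).le
              have := Real.add_one_le_exp (93 / 100 * Real.log x)
              linarith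
          _ = x := by
              rw [← Real.exp_add]
              have : 7 / 100 * Real.log x + 93 / 100 * Real.log x = Real.log x := by ring
              rw [this, Real.exp_log hxr]
      exact_mod_cast h1
    have h0 := pw_zero hxp hb hQ32 hco
    have h1 : ∑ n ∈ NI (x / 32) x (QQ x) b, pw x (n + j) = 0 := sum_eq_zero h0
    rw [h1, mul_zero, mul_zero, zero_sub]
    have h2 : 0 ≤ η' * (XI (x / 32) x (QQ x) * (om y z / E) * om y z ^ B.card) :=
      mul_nonneg hη0.le hN0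
    linarith
  · rcases Nat.eq_zero_or_pos B.card with hB0 | hB0
    · have hBe : B = ∅ := card_eq_zero.1 hB0
      subst hBe
      have h1 : ∑ n ∈ NI (x / 32) x (QQ x) b,
          (if ∀ i ∈ (∅ : Finset ℕ), Rg y z (n + i) then pw x (n + j) else 0) =
          ∑ n ∈ NI (x / 32) x (QQ x) b, pw x (n + j) := by
        apply sum_congr rfl
        intro n _
        simp
      rw [h1, card_empty, pow_zero, one_mul]
      rw [card_empty, pow_zero] at hN0
      have h2 : 0 ≤ ∑ n ∈ NI (x / 32) x (QQ x) b, pw x (n + j) :=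
        sum_nonneg fun n _ => pw_nonneg _ _
      nlinarith
    · have hsz := sizes (K := K) hc hκ0 (min_le_left _ _) hC hME' hη0 le_rfl hΛ0 h48 hE1 hS hyA rfl
        H1 H2 H2' H4
      exact main hRT hPW hBF hκ0 (min_le_right _ _) hC hη0 (min_le_right _ _) (by omega) hΛ0 hCΛ
        h48 hκΛ hE1 hxx0 hxx1 hS.2.2.2.1 hb hB (hBK.trans (le_max_left _ _)) hB0 hj hjB hco
        hS.2.2.2.2.2 hsz H1 H2 H3 H4

end Pool.Agent.Helper74.MC
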