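import Pool.Agent.Helper23.MC.Goals4
import Pool.Agent.Helper54.CG.EB
import Pool.Agent.Helper53.CG.ERc
import Pool.Agent.Helper85.CR.SE
import Pool.Agent.Helper88.CR.OM

/-!
# Packet MC-CBL, part a: finite sums and products over sets of primes
-/

set_option autoImplicit false

open Finset Filter Topology

open scoped Classical

namespace Pool.Agent.Helper74.MC

open Pool.Agent.Helper88.PP (pr Rg om QQ)
open Pool.Agent.Helper88.GM (NI XI)
open Pool.Agent.Helper88.CG (pw th)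
open Pool.Agent.Helper23.MC

/-- `β^#A/φ(∏A)` -/
noncomputable def gt (β : ℕ) (A : Finset ℕ) : ℝ :=
  (β : ℝ) ^ A.card / (Nat.totient (∏ p ∈ A, p) : ℝ)

/-- the subsets of `I` with at most `r` elements -/
noncomputable def Fa (I : Finset ℕ) (r : ℕ) : Finset (Finset ℕ) :=
  I.powerset.filter (fun A => A.card ≤ r)

/-- the truncated alternating sum -/
noncomputable def sgm (β : ℕ) (I : Finset ℕ) (r : ℕ) : ℝ :=
  ∑ A ∈ Fa I r, (-1 : ℝ) ^ A.card * gt β A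

lemma abs_neg_one_pow' (n : ℕ) : |(-1 : ℝ) ^ n| = 1 := by
  rw [abs_pow, abs_neg, abs_one, one_pow]

/-- expansion of the main term -/
lemma expand (β : ℕ) (I₁ I₂ : Finset ℕ) (r : ℕ) (F : Finset ℕ → ℝ) :
    |∑ A₁ ∈ Fa I₁ r, ∑ A₂ ∈ Fa I₂ r, (-1 : ℝ) ^ (A₁.card + A₂.card) * F (A₁ ∪ A₂)
        - sgm β I₁ r * sgm β I₂ r * F ∅|
      ≤ ∑ A₁ ∈ Fa I₁ r, ∑ A₂ ∈ Fa I₂ r, |F (A₁ ∪ A₂) - gt β A₂ * F A₁|
        + |sgm β I₂ r| * ∑ A₁ ∈ Fa I₁ r, |F A₁ - gt β A₁ * F ∅| := by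
  have h1 : ∑ A₁ ∈ Fa I₁ r, ∑ A₂ ∈ Fa I₂ r, (-1 : ℝ) ^ (A₁.card + A₂.card) * F (A₁ ∪ A₂)
        - sgm β I₁ r * sgm β I₂ r * F ∅
      = ∑ A₁ ∈ Fa I₁ r, ∑ A₂ ∈ Fa I₂ r,
          (-1 : ℝ) ^ (A₁.card + A₂.card) * (F (A₁ ∪ A₂) - gt β A₂ * F A₁)
        + sgm β I₂ r * ∑ A₁ ∈ Fa I₁ r, (-1 : ℝ) ^ A₁.card * (F A₁ - gt β A₁ * F ∅) := by
    have h2 : ∑ A₁ ∈ Fa I₁ r, ∑ A₂ ∈ Fa I₂ r,
          (-1 : ℝ) ^ (A₁.card + A₂.card) * (F (A₁ ∪ A₂) - gt β A₂ * F A₁)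
        = ∑ A₁ ∈ Fa I₁ r, ∑ A₂ ∈ Fa I₂ r, (-1 : ℝ) ^ (A₁.card + A₂.card) * F (A₁ ∪ A₂)
          - ∑ A₁ ∈ Fa I₁ r, (-1 : ℝ) ^ A₁.card * F A₁ * sgm β I₂ r := by
      rw [← sum_sub_distrib]
      apply sum_congr rfl
      intro A₁ _
      unfold sgm
      rw [mul_sum, ← sum_sub_distrib]
      apply sum_congr rfl
      intro A₂ _
      rw [pow_add]
      ring
    have h3 : ∑ A₁ ∈ Fa I₁ r, (-1 : ℝ) ^ A₁.card * (F A₁ - gt β A₁ * F ∅)
        = ∑ A₁ ∈ Fa I₁ r, (-1 : ℝ) ^ A₁.card * F A₁ - sgm β I₁ r * F ∅ := by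
      unfold sgm
      rw [sum_mul, ← sum_sub_distrib]
      apply sum_congr rfl
      intro A₁ _
      ring
    rw [h2, h3, ← sum_mul]
    ring
  rw [h1]
  refine (abs_add_le _ _).trans (add_le_add ?_ ?_)
  · refine (abs_sum_le_sum_abs _ _).trans (sum_le_sum fun A₁ _ => ?_)
    refine (abs_sum_le_sum_abs _ _).trans (sum_le_sum fun A₂ _ => ?_)
    rw [abs_mul, abs_neg_one_pow', one_mul]
  · rw [abs_mul]
    refine mul_le_mul_of_nonneg_left ?_ (abs_nonneg _)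
    refine (abs_sum_le_sum_abs _ _).trans (sum_le_sum fun A₁ _ => ?_)
    rw [abs_mul, abs_neg_one_pow', one_mul]

/-! ### The truncated sums -/

lemma gt_prod {β : ℕ} {A : Finset ℕ} (hA : ∀ p ∈ A, Nat.Prime p) :
    gt β A = ∏ p ∈ A, ((β : ℝ) / ((p : ℝ) - 1)) := by
  unfold gt
  rw [Pool.Agent.Helper85.CR.tot_prod A hA, prod_div_distrib, prod_const]

lemma full_sum (I : Finset ℕ) (f : ℕ → ℝ) :
    ∑ A ∈ I.powerset, (-1 : ℝ) ^ A.card * ∏ p ∈ A, f p = ∏ p ∈ I, (1 - f p) := by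
  have h : ∏ p ∈ I, (1 - f p) = ∏ p ∈ I, ((-f p) + 1) := by
    apply prod_congr rfl
    intro p _
    ring
  rw [h, Finset.prod_add_one]
  apply sum_congr rfl
  intro A _
  rw [prod_neg]

/-- Rankin's trick for the tail -/
lemma tail_le (I : Finset ℕ) (f : ℕ → ℝ) (hf : ∀ p ∈ I, 0 ≤ f p) (r : ℕ) :
    ∑ A ∈ I.powerset.filter (fun A => ¬ A.card ≤ r), ∏ p ∈ A, f p
      ≤ Real.exp (3 * ∑ p ∈ I, f p - (r + 1)) := by
  have h1 : ∀ A ∈ I.powerset.filter (fun A => ¬ A.card ≤ r), ∏ p ∈ A, f p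
      ≤ Real.exp (-((r : ℝ) + 1)) * ∏ p ∈ A, (Real.exp 1 * f p) := by
    intro A hA
    rw [mem_filter, mem_powerset] at hA
    rw [prod_mul_distrib, prod_const]
    have h2 : Real.exp 1 ^ A.card = Real.exp A.card := by
      rw [← Real.exp_nat_mul, mul_one]
    rw [h2, ← mul_assoc, ← Real.exp_add]
    have h3 : 1 ≤ Real.exp (-((r : ℝ) + 1) + A.card) := by
      apply Real.one_le_exp
      have : (r : ℝ) + 1 ≤ A.card := by exact_mod_cast (by omega : r + 1 ≤ A.card)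
      linarith
    have h4 : 0 ≤ ∏ p ∈ A, f p := prod_nonneg fun p hp => hf p (hA.1 hp)
    nlinarith
  calc ∑ A ∈ I.powerset.filter (fun A => ¬ A.card ≤ r), ∏ p ∈ A, f p
      ≤ ∑ A ∈ I.powerset.filter (fun A => ¬ A.card ≤ r),
          Real.exp (-((r : ℝ) + 1)) * ∏ p ∈ A, (Real.exp 1 * f p) := sum_le_sum h1
    _ ≤ ∑ A ∈ I.powerset, Real.exp (-((r : ℝ) + 1)) * ∏ p ∈ A, (Real.exp 1 * f p) := by
        apply sum_le_sum_of_subset_of_nonneg (filter_subset _ _)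
        intro A hA _
        rw [mem_powerset] at hA
        exact mul_nonneg (Real.exp_pos _).le
          (prod_nonneg fun p hp => mul_nonneg (Real.exp_pos _).le (hf p (hA hp)))
    _ = Real.exp (-((r : ℝ) + 1)) * ∑ A ∈ I.powerset, ∏ p ∈ A, (Real.exp 1 * f p) := by
        rw [mul_sum]
    _ ≤ Real.exp (-((r : ℝ) + 1)) * Real.exp (∑ p ∈ I, Real.exp 1 * f p) := by
        apply mul_le_mul_of_nonneg_left _ (Real.exp_pos _).le
        exact Pool.Agent.Helper53.CG.sum_pow_le_exp I _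
          fun p hp => mul_nonneg (Real.exp_pos _).le (hf p hp)
    _ ≤ _ := by
        rw [← Real.exp_add, ← mul_sum]
        apply Real.exp_le_exp.2
        have h2 : 0 ≤ ∑ p ∈ I, f p := sum_nonneg hf
        have h3 : Real.exp 1 ≤ 3 := by linarith [Real.exp_one_lt_d9]
        nlinarith

lemma sgm_near (β : ℕ) (I : Finset ℕ) (r : ℕ) (hI : ∀ p ∈ I, Nat.Prime p) :
    |sgm β I r - ∏ p ∈ I, (1 - (β : ℝ) / ((p : ℝ) - 1))|
      ≤ Real.exp (3 * ∑ p ∈ I, (β : ℝ) / ((p : ℝ) - 1) - (r + 1)) := by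
  have hf : ∀ p ∈ I, 0 ≤ (β : ℝ) / ((p : ℝ) - 1) := by
    intro p hp
    have : (2 : ℝ) ≤ p := by exact_mod_cast (hI p hp).two_le
    exact div_nonneg (Nat.cast_nonneg _) (by linarith)
  rw [← full_sum]
  have h1 : sgm β I r = ∑ A ∈ I.powerset.filter (fun A => A.card ≤ r),
      (-1 : ℝ) ^ A.card * ∏ p ∈ A, ((β : ℝ) / ((p : ℝ) - 1)) := by
    unfold sgm Fa
    apply sum_congr rfl
    intro A hA
    rw [mem_filter, mem_powerset] at hA
    rw [gt_prod fun p hp => hI p (hA.1 hp)]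
  rw [h1, ← sum_filter_add_sum_filter_not I.powerset (fun A => A.card ≤ r)
    (fun A => (-1 : ℝ) ^ A.card * ∏ p ∈ A, ((β : ℝ) / ((p : ℝ) - 1)))]
  rw [show ∀ a b : ℝ, a - (a + b) = -b by intro a b; ring, abs_neg]
  refine (abs_sum_le_sum_abs _ _).trans (le_trans (sum_le_sum fun A hA => ?_)
    (tail_le I _ hf r))
  rw [mem_filter, mem_powerset] at hA
  rw [abs_mul, abs_neg_one_pow', one_mul, abs_of_nonneg]
  exact prod_nonneg fun p hp => hf p (hA.1 hp)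

/-! ### The products -/

lemma term_up {β p : ℕ} (hp : β + 2 ≤ p) :
    0 ≤ 1 - (β : ℝ) / ((p : ℝ) - 1) ∧
      1 - (β : ℝ) / ((p : ℝ) - 1) ≤ (1 - 1 / (p : ℝ)) ^ β := by
  have hp' : (β : ℝ) + 2 ≤ p := by exact_mod_cast hp
  have hβ : (0 : ℝ) ≤ β := Nat.cast_nonneg _
  have hp1 : 0 < (p : ℝ) - 1 := by linarith
  constructor
  · rw [sub_nonneg, div_le_one hp1]
    linarith
  · have h1 : 1 + (β : ℝ) * (-(1 / (p : ℝ))) ≤ (1 + -(1 / (p : ℝ))) ^ β := by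
      apply one_add_mul_le_pow
      have : 1 / (p : ℝ) ≤ 1 := by
        rw [div_le_one (by linarith)]
        linarith
      linarith
    have h2 : (β : ℝ) / p ≤ (β : ℝ) / ((p : ℝ) - 1) :=
      div_le_div_of_nonneg_left hβ hp1 (by linarith)
    have h3 : (1 : ℝ) - 1 / p = 1 + -(1 / (p : ℝ)) := by ring
    rw [h3]
    have h4 : 1 + (β : ℝ) * (-(1 / (p : ℝ))) = 1 - (β : ℝ) / p := by ring
    linarith

lemma term_low {β p : ℕ} (hβ : 1 ≤ β) (hp : 2 * β + 2 ≤ p) :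
    (1 - 1 / (p : ℝ)) ^ β * (1 - 6 * (β : ℝ) ^ 2 / (p : ℝ) ^ 2)
      ≤ 1 - (β : ℝ) / ((p : ℝ) - 1) := by
  have hp' : 2 * (β : ℝ) + 2 ≤ p := by exact_mod_cast hp
  have hβ' : (1 : ℝ) ≤ β := by exact_mod_cast hβ
  have hp0 : (0 : ℝ) < p := by linarith
  have hp1 : 0 < (p : ℝ) - 1 := by linarith
  set u : ℝ := (β : ℝ) / p with hu
  have hu0 : 0 ≤ u := by positivity
  have hu1 : u ≤ 1 / 2 := by
    rw [hu, div_le_iff₀ hp0]
    linarith
  have h1 : (1 - 1 / (p : ℝ)) ^ β ≤ 1 - u + u ^ 2 / 2 := by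
    have h2 : 1 - 1 / (p : ℝ) ≤ Real.exp (-(1 / (p : ℝ))) := by
      have := Real.add_one_le_exp (-(1 / (p : ℝ)))
      linarith
    have h3 : 0 ≤ 1 - 1 / (p : ℝ) := by
      have : 1 / (p : ℝ) ≤ 1 := by
        rw [div_le_one hp0]
        linarith
      linarith
    have h4 : (1 - 1 / (p : ℝ)) ^ β ≤ Real.exp (-u) := by
      calc (1 - 1 / (p : ℝ)) ^ β ≤ Real.exp (-(1 / (p : ℝ))) ^ β := pow_le_pow_left₀ h3 h2 _
        _ = Real.exp (-u) := by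
          rw [← Real.exp_nat_mul]
          congr 1
          rw [hu]
          ring
    refine h4.trans ?_
    have h5 := Real.quadratic_le_exp_of_nonneg hu0
    -- exp(-u) (1 + u + u^2/2) ≤ 1
    have h6 : Real.exp (-u) * (1 + u + u ^ 2 / 2) ≤ 1 := by
      calc Real.exp (-u) * (1 + u + u ^ 2 / 2) ≤ Real.exp (-u) * Real.exp u :=
            mul_le_mul_of_nonneg_left h5 (Real.exp_pos _).le
        _ = 1 := by rw [← Real.exp_add]; simp
    have h7 : (1 : ℝ) ≤ (1 - u + u ^ 2 / 2) * (1 + u + u ^ 2 / 2) := by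
      have : (1 - u + u ^ 2 / 2) * (1 + u + u ^ 2 / 2) = 1 + u ^ 4 / 4 := by ring
      rw [this]
      have : 0 ≤ u ^ 4 := by positivity
      linarith
    have h8 : 0 < 1 + u + u ^ 2 / 2 := by positivity
    exact le_of_mul_le_mul_right (h6.trans h7) h8
  have h9 : (β : ℝ) / ((p : ℝ) - 1) ≤ u + 2 * (β : ℝ) / (p : ℝ) ^ 2 := by
    rw [hu, div_add_div _ _ hp0.ne' (by positivity), div_le_div_iff₀ hp1 (by positivity)]
    have h10 : 0 ≤ (β : ℝ) * p * (p - 2) := mul_nonneg (by positivity) (by linarith)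
    nlinarith
  set v : ℝ := 6 * (β : ℝ) ^ 2 / (p : ℝ) ^ 2 with hv
  have hv0 : 0 ≤ v := by positivity
  have hv1 : v / 2 ≥ u ^ 2 / 2 + 2 * (β : ℝ) / (p : ℝ) ^ 2 := by
    have h10 : u ^ 2 = (β : ℝ) ^ 2 / (p : ℝ) ^ 2 := by rw [hu, div_pow]
    rw [h10, hv, ge_iff_le, ← sub_nonneg]
    have h11 : 6 * (β : ℝ) ^ 2 / (p : ℝ) ^ 2 / 2 - ((β : ℝ) ^ 2 / (p : ℝ) ^ 2 / 2 +
        2 * (β : ℝ) / (p : ℝ) ^ 2) = (5 / 2 * (β : ℝ) ^ 2 - 2 * β) / (p : ℝ) ^ 2 := by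
      field_simp
      ring
    rw [h11]
    apply div_nonneg _ (by positivity)
    nlinarith
  have hq : 0 ≤ (1 - 1 / (p : ℝ)) ^ β := by
    apply pow_nonneg
    have : 1 / (p : ℝ) ≤ 1 := by
      rw [div_le_one hp0]
      linarith
    linarith
  by_cases hv2 : v ≤ 1
  · calc (1 - 1 / (p : ℝ)) ^ β * (1 - v) ≤ (1 - u + u ^ 2 / 2) * (1 - v) :=
          mul_le_mul_of_nonneg_right h1 (by linarith)
      _ ≤ 1 - u + u ^ 2 / 2 - v / 2 := by nlinarith [sq_nonneg u]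
      _ ≤ _ := by linarith
  · push Not at hv2
    have h12 : (1 - 1 / (p : ℝ)) ^ β * (1 - v) ≤ 0 :=
      mul_nonpos_of_nonneg_of_nonpos hq (by linarith)
    have h13 := (term_up (β := β) (p := p) (by omega)).1
    linarith

lemma prod_up {β : ℕ} {I : Finset ℕ} (hI : ∀ p ∈ I, β + 2 ≤ p) :
    0 ≤ ∏ p ∈ I, (1 - (β : ℝ) / ((p : ℝ) - 1)) ∧
    ∏ p ∈ I, (1 - (β : ℝ) / ((p : ℝ) - 1)) ≤ (∏ p ∈ I, (1 - 1 / (p : ℝ))) ^ β := by
  constructor
  · exact prod_nonneg fun p hp => (term_up (hI p hp)).1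
  · rw [← prod_pow]
    exact Finset.prod_le_prod (fun p hp => (term_up (hI p hp)).1) fun p hp => (term_up (hI p hp)).2

lemma prod_low {β y z : ℕ} (hβ : 1 ≤ β) (hy : 6 * β ^ 2 ≤ y) :
    om y z ^ β * (1 - 6 * (β : ℝ) ^ 2 / y) ≤ ∏ p ∈ pr y z, (1 - (β : ℝ) / ((p : ℝ) - 1)) := by
  have hy1 : 1 ≤ y := by nlinarith
  have hy0 : (0 : ℝ) < y := by exact_mod_cast hy1
  have hyb : 2 * β + 2 ≤ y := by nlinarith
  have hyr : 6 * (β : ℝ) ^ 2 ≤ y := by exact_mod_cast hy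
  have hpr : ∀ p ∈ pr y z, y < p := fun p hp => (Pool.Agent.Helper54.CG.mem_pr' hp).1
  have h1 := Pool.Agent.Helper74.PP.one_sub_sum_le_prod (pr y z)
    (fun p => 6 * (β : ℝ) ^ 2 / (p : ℝ) ^ 2) (fun p _ => by positivity) (fun p hp => by
      have h2 : (y : ℝ) ≤ p := by exact_mod_cast (hpr p hp).le
      have h3 : (1 : ℝ) ≤ y := by exact_mod_cast hy1
      rw [div_le_one (by nlinarith)]
      nlinarith)
  have h2 : ∑ p ∈ pr y z, 6 * (β : ℝ) ^ 2 / (p : ℝ) ^ 2 ≤ 6 * (β : ℝ) ^ 2 / y := by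
    have h3 := Pool.Agent.Helper74.PP.sum_pr_sq y z hy1
    calc ∑ p ∈ pr y z, 6 * (β : ℝ) ^ 2 / (p : ℝ) ^ 2
        = 6 * (β : ℝ) ^ 2 * ∑ p ∈ pr y z, 1 / (p : ℝ) ^ 2 := by
          rw [mul_sum]
          apply sum_congr rfl
          intro p _
          ring
      _ ≤ 6 * (β : ℝ) ^ 2 * (1 / y) := mul_le_mul_of_nonneg_left h3 (by positivity)
      _ = _ := by ring
  have hom : 0 ≤ om y z ^ β := by
    apply pow_nonneg
    unfold om
    apply prod_nonneg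
    intro p hp
    have h3 : (1 : ℝ) ≤ p := by
      have := hpr p hp
      exact_mod_cast (by omega : 1 ≤ p)
    rw [sub_nonneg, div_le_one (by linarith)]
    exact h3
  calc om y z ^ β * (1 - 6 * (β : ℝ) ^ 2 / y)
      ≤ om y z ^ β * ∏ p ∈ pr y z, (1 - 6 * (β : ℝ) ^ 2 / (p : ℝ) ^ 2) := by
        apply mul_le_mul_of_nonneg_left _ hom
        linarith [h1.1]
    _ = ∏ p ∈ pr y z, ((1 - 1 / (p : ℝ)) ^ β * (1 - 6 * (β : ℝ) ^ 2 / (p : ℝ) ^ 2)) := by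
        unfold om
        rw [← prod_pow, prod_mul_distrib]
    _ ≤ _ := by
        apply Finset.prod_le_prod
        · intro p hp
          apply mul_nonneg
          · apply pow_nonneg
            have h3 : (1 : ℝ) ≤ p := by
              have := hpr p hp
              exact_mod_cast (by omega : 1 ≤ p)
            rw [sub_nonneg, div_le_one (by linarith)]
            exact h3
          · have h4 : (y : ℝ) ≤ p := by exact_mod_cast (hpr p hp).le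
            have h3 : (1 : ℝ) ≤ y := by exact_mod_cast hy1
            rw [sub_nonneg, div_le_one (by nlinarith)]
            nlinarith
        · intro p hp
          have := hpr p hp
          exact term_low hβ (by omega)

end Pool.Agent.Helper74.MC
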