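import Pool.Agent.Helper74.MC.CBLa

/-!
# Packet MC-CBL, part b: replacing the progressions by the main term
-/

set_option autoImplicit false

open Finset Filter Topology

open scoped Classical

namespace Pool.Agent.Helper74.MC

open Pool.Agent.Helper88.PP (pr Rg om QQ)
open Pool.Agent.Helper88.GM (NI XI)
open Pool.Agent.Helper88.CG (pw th)
open Pool.Agent.Helper23.MC
open Pool.Agent.Helper54.CG (mem_pr' QQ_pos pw_nonneg pw_supp)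

/-- the statement inside `StmtRT` -/
def RTs (A x0 : ℕ) : Prop := ∀ x k Y1 Y2 L r : ℕ, x0 ≤ x → 1 ≤ k → 2 ≤ Y1 → Y1 ≤ Y2 →
  1 ≤ L → (k * Y2 ^ r) ^ 4 ≤ x → 1 ≤ r →
  ∀ a : Finset ℕ → ℕ, (∀ D ⊆ pr Y1 Y2, D.card ≤ r → Nat.Coprime (a D) (k * ∏ p ∈ D, p)) →
  (∀ p ∈ pr Y1 Y2, ¬ p ∣ k) →
  ∑ D ∈ (pr Y1 Y2).powerset.filter (fun D => D.card ≤ r), (L : ℝ) ^ D.card *
      |th x (k * ∏ p ∈ D, p) (a D) - th x k (a D) / (Nat.totient (∏ p ∈ D, p) : ℝ)|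
    ≤ L * Real.exp (3 * L * ∑ p ∈ pr Y1 Y2, 1 / (p : ℝ)) * (x / k) * Real.log x ^ A *
      (1 / Y1 + (x : ℝ) ^ (-(1 / 50) : ℝ))

/-- the statement inside `StmtPWA` -/
def PWs (x0 : ℕ) : Prop := ∀ x y z b j : ℕ, x0 ≤ x → Real.log x ≤ y → 32 * y ≤ x →
  b < QQ x → Nat.Coprime (b + j) (QQ x) → j ∈ Icc 1 y → ∀ B : Finset ℕ, B ⊆ Icc 1 y → j ∉ B →
  ∀ A₁ ⊆ pr y z, ∃ a : Finset ℕ → ℕ, ∀ A₂ ⊆ pr y z, Disjoint A₁ A₂ →
    Nat.Coprime (a A₂) (QQ x * (∏ p ∈ A₁, p) * ∏ p ∈ A₂, p) ∧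
    |PW x b j B (A₁ ∪ A₂) - (B.card : ℝ) ^ A₂.card / (Nat.totient (∏ p ∈ A₂, p) : ℝ) *
        PW x b j B A₁|
      ≤ (B.card : ℝ) ^ (A₁.card + A₂.card) *
        |th x (QQ x * (∏ p ∈ A₁, p) * ∏ p ∈ A₂, p) (a A₂)
          - th x (QQ x * ∏ p ∈ A₁, p) (a A₂) / (Nat.totient (∏ p ∈ A₂, p) : ℝ)|

lemma not_dvd_QQ {x y p : ℕ} (hlog : Real.log x ≤ y) (hp : p.Prime) (hy : y < p) :
    ¬ p ∣ QQ x := by
  intro h
  have h1 : p ≤ ⌊Real.log x / 20⌋₊ := hp.dvd_primorial_iff.1 h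
  have h0 : 0 ≤ Real.log (x : ℝ) := Real.log_natCast_nonneg x
  have h2 : ((⌊Real.log x / 20⌋₊ : ℕ) : ℝ) ≤ Real.log x / 20 := Nat.floor_le (by positivity)
  have h3 : (p : ℝ) ≤ y := by
    have : (p : ℝ) ≤ ((⌊Real.log x / 20⌋₊ : ℕ) : ℝ) := by exact_mod_cast h1
    linarith
  have h4 : p ≤ y := by exact_mod_cast h3
  omega

lemma prod_pos' {y z : ℕ} {A : Finset ℕ} (hA : A ⊆ pr y z) : 0 < ∏ p ∈ A, p :=
  prod_pos fun p hp => (mem_pr' (hA hp)).2.2.pos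

lemma prod_le' {y z r : ℕ} {A : Finset ℕ} (hA : A ⊆ pr y z) (hr : A.card ≤ r) (hz : 1 ≤ z) :
    ∏ p ∈ A, p ≤ z ^ r := by
  calc ∏ p ∈ A, p ≤ ∏ _p ∈ A, z := Finset.prod_le_prod' fun p hp => (mem_pr' (hA hp)).2.1
    _ = z ^ A.card := by rw [prod_const]
    _ ≤ z ^ r := Nat.pow_le_pow_right hz hr

lemma pr_mono {y y' z z' : ℕ} (hy : y ≤ y') (hz : z' ≤ z) : pr y' z' ⊆ pr y z := by
  intro p hp
  rw [Pool.Agent.Helper64.RR.mem_pr] at hp ⊢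
  exact ⟨by omega, by omega, hp.2.2⟩

lemma step {ART x0 x1 : ℕ} (hRT : RTs ART x0) (hPW : PWs x1) {x y z b j r Y1 Y2 : ℕ}
    (hx0 : x0 ≤ x) (hx1 : x1 ≤ x) (hlog : Real.log x ≤ y) (h32 : 32 * y ≤ x) (hb : b < QQ x)
    (hco : Nat.Coprime (b + j) (QQ x)) (hj : j ∈ Icc 1 y) {B : Finset ℕ} (hB : B ⊆ Icc 1 y)
    (hjB : j ∉ B) (hβ : 1 ≤ B.card) (hy2 : 2 ≤ y) (hyY : y ≤ Y1) (hY : Y1 ≤ Y2) (hYz : Y2 ≤ z)
    (hr : 1 ≤ r) (hz : (QQ x * z ^ (2 * r)) ^ 4 ≤ x) {A₁ : Finset ℕ} (hA₁ : A₁ ⊆ pr y Y1)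
    (hA₁r : A₁.card ≤ r) :
    ∑ A₂ ∈ Fa (pr Y1 Y2) r, |PW x b j B (A₁ ∪ A₂) - gt B.card A₂ * PW x b j B A₁|
      ≤ (B.card : ℝ) ^ A₁.card * (B.card * Real.exp (3 * B.card * ∑ p ∈ pr Y1 Y2, 1 / (p : ℝ)) *
        (x / ((QQ x * ∏ p ∈ A₁, p : ℕ) : ℝ)) * Real.log x ^ ART *
        (1 / Y1 + (x : ℝ) ^ (-(1 / 50) : ℝ))) := by
  have hz1 : 1 ≤ z := by omega
  have hA₁z : A₁ ⊆ pr y z := hA₁.trans (pr_mono le_rfl (by omega))
  obtain ⟨a, ha⟩ := hPW x y z b j hx1 hlog h32 hb hco hj B hB hjB A₁ hA₁z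
  have hdis : ∀ A₂ ⊆ pr Y1 Y2, Disjoint A₁ A₂ := by
    intro A₂ hA₂
    rw [Finset.disjoint_left]
    intro p hp hp'
    have h1 := (mem_pr' (hA₁ hp)).2.1
    have h2 := (mem_pr' (hA₂ hp')).1
    omega
  have hsub : ∀ A₂ ⊆ pr Y1 Y2, A₂ ⊆ pr y z := fun A₂ hA₂ => hA₂.trans (pr_mono hyY hYz)
  have hk : 1 ≤ QQ x * ∏ p ∈ A₁, p := Nat.mul_pos (QQ_pos x) (prod_pos' hA₁)
  have hRT' := hRT x (QQ x * ∏ p ∈ A₁, p) Y1 Y2 B.card r hx0 hk (by omega) hY hβ (by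
    refine le_trans (Nat.pow_le_pow_left ?_ 4) hz
    calc QQ x * (∏ p ∈ A₁, p) * Y2 ^ r ≤ QQ x * z ^ r * z ^ r := by
          apply Nat.mul_le_mul (Nat.mul_le_mul_left _ (prod_le' hA₁z hA₁r hz1))
          exact Nat.pow_le_pow_left hYz r
      _ = QQ x * z ^ (2 * r) := by
          rw [mul_assoc, ← pow_add]
          congr 2
          omega) hr a (fun D hD _ => (ha D (hsub D hD) (hdis D hD)).1) (by
    intro p hp h
    have h1 := mem_pr' hp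
    rcases (Nat.Prime.dvd_mul h1.2.2).1 h with h2 | h2
    · exact not_dvd_QQ hlog h1.2.2 (by omega) h2
    · rw [Prime.dvd_finset_prod_iff (Nat.Prime.prime h1.2.2)] at h2
      obtain ⟨q, hq, hpq⟩ := h2
      have h3 := mem_pr' (hA₁ hq)
      have h4 := (Nat.prime_dvd_prime_iff_eq h1.2.2 h3.2.2).1 hpq
      omega)
  calc ∑ A₂ ∈ Fa (pr Y1 Y2) r, |PW x b j B (A₁ ∪ A₂) - gt B.card A₂ * PW x b j B A₁|
      ≤ ∑ A₂ ∈ Fa (pr Y1 Y2) r, (B.card : ℝ) ^ A₁.card * ((B.card : ℝ) ^ A₂.card *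
        |th x (QQ x * (∏ p ∈ A₁, p) * ∏ p ∈ A₂, p) (a A₂)
          - th x (QQ x * ∏ p ∈ A₁, p) (a A₂) / (Nat.totient (∏ p ∈ A₂, p) : ℝ)|) := by
        apply sum_le_sum
        intro A₂ hA₂
        unfold Fa at hA₂
        rw [mem_filter, mem_powerset] at hA₂
        have h1 := (ha A₂ (hsub A₂ hA₂.1) (hdis A₂ hA₂.1)).2
        rw [pow_add, mul_assoc] at h1
        exact h1
    _ = (B.card : ℝ) ^ A₁.card * ∑ A₂ ∈ Fa (pr Y1 Y2) r, ((B.card : ℝ) ^ A₂.card *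
        |th x (QQ x * (∏ p ∈ A₁, p) * ∏ p ∈ A₂, p) (a A₂)
          - th x (QQ x * ∏ p ∈ A₁, p) (a A₂) / (Nat.totient (∏ p ∈ A₂, p) : ℝ)|) := by
        rw [mul_sum]
    _ ≤ _ := by
        apply mul_le_mul_of_nonneg_left hRT' (by positivity)

/-- the sum over `A₁` -/
lemma step2 {ART x0 x1 : ℕ} (hRT : RTs ART x0) (hPW : PWs x1) {x y z b j r Y : ℕ}
    (hx0 : x0 ≤ x) (hx1 : x1 ≤ x) (hlog : Real.log x ≤ y) (h32 : 32 * y ≤ x) (hb : b < QQ x)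
    (hco : Nat.Coprime (b + j) (QQ x)) (hj : j ∈ Icc 1 y) {B : Finset ℕ} (hB : B ⊆ Icc 1 y)
    (hjB : j ∉ B) (hβ : 1 ≤ B.card) (hy2 : 2 ≤ y) (hyY : y ≤ Y) (hYz : Y ≤ z)
    (hr : 1 ≤ r) (hz : (QQ x * z ^ (2 * r)) ^ 4 ≤ x) :
    ∑ A₁ ∈ Fa (pr y Y) r, ∑ A₂ ∈ Fa (pr Y z) r,
        |PW x b j B (A₁ ∪ A₂) - gt B.card A₂ * PW x b j B A₁|
      ≤ Real.exp (B.card * ∑ p ∈ pr y Y, 1 / (p : ℝ)) *
        (B.card * Real.exp (3 * B.card * ∑ p ∈ pr Y z, 1 / (p : ℝ)) *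
        (x / (QQ x : ℝ)) * Real.log x ^ ART * (1 / Y + (x : ℝ) ^ (-(1 / 50) : ℝ))) := by
  set M : ℝ := B.card * Real.exp (3 * B.card * ∑ p ∈ pr Y z, 1 / (p : ℝ)) *
        (x / (QQ x : ℝ)) * Real.log x ^ ART * (1 / Y + (x : ℝ) ^ (-(1 / 50) : ℝ)) with hM
  have hl0 : 0 ≤ Real.log (x : ℝ) := Real.log_natCast_nonneg x
  have hM0 : 0 ≤ M := by rw [hM]; positivity
  calc ∑ A₁ ∈ Fa (pr y Y) r, ∑ A₂ ∈ Fa (pr Y z) r,
        |PW x b j B (A₁ ∪ A₂) - gt B.card A₂ * PW x b j B A₁|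
      ≤ ∑ A₁ ∈ Fa (pr y Y) r, (∏ p ∈ A₁, ((B.card : ℝ) / p)) * M := by
        apply sum_le_sum
        intro A₁ hA₁
        unfold Fa at hA₁
        rw [mem_filter, mem_powerset] at hA₁
        have h1 := step hRT hPW hx0 hx1 hlog h32 hb hco hj hB hjB hβ hy2 hyY hYz le_rfl hr hz
          hA₁.1 hA₁.2
        refine h1.trans (le_of_eq ?_)
        have h2 : (0 : ℝ) < ((∏ p ∈ A₁, p : ℕ) : ℝ) := by exact_mod_cast prod_pos' hA₁.1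
        have h3 : (0 : ℝ) < (QQ x : ℝ) := by exact_mod_cast QQ_pos x
        have h4 : ∏ p ∈ A₁, ((B.card : ℝ) / p) =
            (B.card : ℝ) ^ A₁.card / ((∏ p ∈ A₁, p : ℕ) : ℝ) := by
          rw [prod_div_distrib, prod_const]
          push_cast
          rfl
        rw [h4, hM, Nat.cast_mul]
        field_simp
    _ = (∑ A₁ ∈ Fa (pr y Y) r, ∏ p ∈ A₁, ((B.card : ℝ) / p)) * M := by rw [sum_mul]
    _ ≤ Real.exp (∑ p ∈ pr y Y, (B.card : ℝ) / p) * M := by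
        apply mul_le_mul_of_nonneg_right _ hM0
        refine le_trans ?_ (Pool.Agent.Helper53.CG.sum_pow_le_exp (pr y Y) _
          (fun p _ => by positivity))
        unfold Fa
        apply sum_le_sum_of_subset_of_nonneg (filter_subset _ _)
        intro A _ _
        exact prod_nonneg fun p _ => by positivity
    _ = _ := by
        congr 2
        rw [mul_sum]
        apply sum_congr rfl
        intro p _
        ring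

/-- no primes at all in a class which is not prime to the modulus -/
lemma pw_zero {x b j : ℕ} (hx : 0 < x) (hb : b < QQ x) (hQ : QQ x ≤ x / 32)
    (hco : ¬ Nat.Coprime (b + j) (QQ x)) : ∀ n ∈ NI (x / 32) x (QQ x) b, pw x (n + j) = 0 := by
  intro n hn
  by_contra h1
  obtain ⟨h2, -, -⟩ := pw_supp hx h1
  apply hco
  rw [Nat.coprime_comm]
  apply Nat.coprime_of_dvd
  intro p hp h3 h4
  have hn' := mem_filter.1 hn
  have h5 : p ∣ n + j := by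
    have h6 : n + j ≡ b + j [MOD p] := by
      apply Nat.ModEq.add_right
      have h7 : n ≡ b [MOD QQ x] := by
        show n % QQ x = b % QQ x
        rw [hn'.2, Nat.mod_eq_of_lt hb]
      exact h7.of_dvd h3
    exact (h6.dvd_iff (dvd_refl p)).2 h4
  rcases (Nat.dvd_prime h2).1 h5 with h6 | h6
  · exact hp.one_lt.ne' h6
  · have h7 := Nat.le_of_dvd (QQ_pos x) h3
    have h8 := (mem_Ioc.1 hn'.1).1
    omega

end Pool.Agent.Helper74.MC
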