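import Pool.Agent.Helper74.MC.CBLb

/-!
# Packet MC-CBL, part c: real inequalities
-/

set_option autoImplicit false

open Finset Filter Topology

open scoped Classical

namespace Pool.Agent.Helper74.MC

/-- thresholds -/
lemma thr (K W : ℕ) (Λ : ℝ) : ∃ L0 : ℝ, ∀ L : ℝ, L0 ≤ L →
    3 * Λ + 6 * K * Λ + W * L ≤ L ^ 2 ∧ 32 ≤ L ∧ Λ ≤ L ∧
    Real.exp (2 * Λ + 3 * K * Λ) * L ^ (4 * K) ≤ Real.exp L ∧ 50 * L ^ 2 ≤ Real.exp L := by
  have h1 : ∀ᶠ L : ℝ in atTop, 3 * Λ + 6 * K * Λ + W * L ≤ L ^ 2 := by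
    filter_upwards [eventually_ge_atTop (1 : ℝ),
      eventually_ge_atTop (|3 * Λ + 6 * K * Λ| + W)] with L hL hL2
    have h2 : 3 * Λ + 6 * K * Λ ≤ |3 * Λ + 6 * K * Λ| := le_abs_self _
    have h3 : 0 ≤ |3 * Λ + 6 * K * Λ| := abs_nonneg _
    have h4 : (|3 * Λ + 6 * K * Λ| + W) * L ≤ L * L :=
      mul_le_mul_of_nonneg_right hL2 (by linarith)
    nlinarith
  have h2 : ∀ᶠ L : ℝ in atTop, Real.exp (2 * Λ + 3 * K * Λ) * L ^ (4 * K) ≤ Real.exp L := by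
    have h3 := Real.tendsto_exp_div_pow_atTop (4 * K)
    filter_upwards [h3.eventually_ge_atTop (Real.exp (2 * Λ + 3 * K * Λ)),
      eventually_gt_atTop (0 : ℝ)] with L hL hL0
    rw [le_div_iff₀ (by positivity)] at hL
    exact hL
  have h3 : ∀ᶠ L : ℝ in atTop, 50 * L ^ 2 ≤ Real.exp L := by
    have h3 := Real.tendsto_exp_div_pow_atTop 2
    filter_upwards [h3.eventually_ge_atTop (50 : ℝ), eventually_gt_atTop (0 : ℝ)] with L hL hL0
    rw [le_div_iff₀ (by positivity)] at hL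
    exact hL
  obtain ⟨L0, hL0⟩ := eventually_atTop.1 (h1.and (h2.and (h3.and
    ((eventually_ge_atTop (32 : ℝ)).and (eventually_ge_atTop Λ)))))
  refine ⟨L0, fun L hL => ?_⟩
  obtain ⟨a, b, c, d, e⟩ := hL0 L hL
  exact ⟨a, d, e, b, c⟩

/-- choice of the constant `Λ` -/
lemma exΛ (K : ℕ) (η κ D : ℝ) (hη : 0 < η) (hκ : 0 < κ) :
    ∃ Λ : ℝ, 0 ≤ Λ ∧ D ≤ Λ ∧ 48 * (K : ℝ) ^ 2 ≤ η * Real.exp Λ ∧
      Real.exp (-Λ) ≤ κ ^ (K + 1) := by
  have h1 : ∀ᶠ Λ : ℝ in atTop, 48 * (K : ℝ) ^ 2 / η ≤ Real.exp Λ :=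
    Real.tendsto_exp_atTop.eventually_ge_atTop _
  have h2 : ∀ᶠ Λ : ℝ in atTop, 1 / κ ^ (K + 1) ≤ Real.exp Λ :=
    Real.tendsto_exp_atTop.eventually_ge_atTop _
  obtain ⟨Λ, h3, h4, h5, h6⟩ := (h1.and (h2.and ((eventually_ge_atTop (0 : ℝ)).and
    (eventually_ge_atTop D)))).exists
  refine ⟨Λ, h5, h6, ?_, ?_⟩
  · rw [div_le_iff₀ hη] at h3
    linarith
  · rw [Real.exp_neg, inv_le_comm₀ (Real.exp_pos _) (by positivity), ← one_div]
    exact h4

lemma mulK {β K : ℕ} (h : β ≤ K) {S T : ℝ} (hS : S ≤ T) (hT : 0 ≤ T) :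
    (β : ℝ) * S ≤ K * T := by
  have h1 : (β : ℝ) ≤ K := by exact_mod_cast h
  calc (β : ℝ) * S ≤ β * T := mul_le_mul_of_nonneg_left hS (Nat.cast_nonneg _)
    _ ≤ K * T := mul_le_mul_of_nonneg_right h1 hT

lemma e1 {K β ART W : ℕ} {L Λ D X S1 S2 iY X50 η κ : ℝ} (hβ : 1 ≤ β) (hβK : β ≤ K)
    (hX : 0 ≤ X) (hL : 0 ≤ L) (hΛ : 0 ≤ Λ) (hD : D ≤ Λ) (hS1 : S1 ≤ L + D) (hS2 : S2 ≤ L + D)
    (hiY0 : 0 ≤ iY) (hX50 : 0 ≤ X50) (hiY : iY ≤ 2 * Real.exp (-L ^ 2))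
    (hX5 : X50 ≤ Real.exp (-L ^ 2)) (hη : 0 ≤ η)
    (h48 : 48 * (K : ℝ) ^ 2 ≤ η * Real.exp Λ) (hκ : Real.exp (-Λ) ≤ κ ^ (K + 1))
    (hW : 7 * K + 1 + ART ≤ W) (H1 : 3 * Λ + 6 * K * Λ + W * L ≤ L ^ 2) :
    Real.exp (β * S1) * (β * Real.exp (3 * β * S2) * X * Real.exp L ^ ART * (iY + X50))
      ≤ η / 8 * (X / 2 * (κ ^ (K + 1) * Real.exp (-((K + 1) * L)))) := by
  have hK : (1 : ℝ) ≤ K := by exact_mod_cast hβ.trans hβK
  have hβK' : (β : ℝ) ≤ K := by exact_mod_cast hβK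
  have hβ0 : (0 : ℝ) ≤ β := Nat.cast_nonneg _
  have hW' : 7 * (K : ℝ) + 1 + ART ≤ W := by exact_mod_cast hW
  have a1 : (β : ℝ) * S1 ≤ K * (L + Λ) := mulK hβK (by linarith) (by linarith)
  have a2 : 3 * (β : ℝ) * S2 ≤ 3 * (K * (L + Λ)) := by
    have := mulK hβK (show S2 ≤ L + Λ by linarith) (by linarith)
    linarith
  have a3 : iY + X50 ≤ 3 * Real.exp (-L ^ 2) := by linarith
  have b1 : Real.exp (β * S1) ≤ Real.exp (K * (L + Λ)) := Real.exp_le_exp.2 a1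
  have b2 : Real.exp (3 * β * S2) ≤ Real.exp (3 * (K * (L + Λ))) := Real.exp_le_exp.2 a2
  have b3 : (Real.exp L) ^ ART = Real.exp (ART * L) := by rw [← Real.exp_nat_mul]
  rw [b3]
  have c1 : Real.exp (β * S1) * (β * Real.exp (3 * β * S2) * X * Real.exp (ART * L) * (iY + X50))
      ≤ Real.exp (K * (L + Λ)) * (K * Real.exp (3 * (K * (L + Λ))) * X * Real.exp (ART * L) *
        (3 * Real.exp (-L ^ 2))) := by
    gcongr
  refine c1.trans ?_
  have d1 : η * Real.exp Λ * Real.exp (-Λ) = η := by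
    rw [mul_assoc, ← Real.exp_add]
    simp
  have d2 : 48 * (K : ℝ) ≤ η * Real.exp Λ := by nlinarith
  have d3 : 3 * (K : ℝ) ≤ η / 16 * Real.exp Λ := by linarith
  have e0 : Real.exp (K * (L + Λ)) * (K * Real.exp (3 * (K * (L + Λ))) * X *
      Real.exp (ART * L) * (3 * Real.exp (-L ^ 2)))
      = X * (3 * K * (Real.exp (K * (L + Λ)) * Real.exp (3 * (K * (L + Λ))) *
        Real.exp (ART * L) * Real.exp (-L ^ 2))) := by ring
  rw [e0, ← Real.exp_add, ← Real.exp_add, ← Real.exp_add]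
  have e2 : η / 8 * (X / 2 * (κ ^ (K + 1) * Real.exp (-((K + 1) * L))))
      = X * (η / 16 * (κ ^ (K + 1) * Real.exp (-((K + 1) * L)))) := by ring
  rw [e2]
  apply mul_le_mul_of_nonneg_left _ hX
  calc 3 * (K : ℝ) * Real.exp (K * (L + Λ) + 3 * (K * (L + Λ)) + ART * L + -L ^ 2)
      ≤ (η / 16 * Real.exp Λ) *
          Real.exp (K * (L + Λ) + 3 * (K * (L + Λ)) + ART * L + -L ^ 2) :=
        mul_le_mul_of_nonneg_right d3 (Real.exp_pos _).le
    _ = η / 16 * Real.exp (Λ + (K * (L + Λ) + 3 * (K * (L + Λ)) + ART * L + -L ^ 2)) := by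
        rw [mul_assoc, ← Real.exp_add]
    _ ≤ η / 16 * Real.exp (-Λ + -((K + 1) * L)) := by
        apply mul_le_mul_of_nonneg_left _ (by linarith)
        apply Real.exp_le_exp.2
        have f1 : (7 * (K : ℝ) + 1 + ART) * L ≤ W * L := mul_le_mul_of_nonneg_right hW' hL
        have f2 : 0 ≤ (K : ℝ) * Λ := by positivity
        have f3 : 0 ≤ (K : ℝ) * L := by positivity
        nlinarith
    _ = η / 16 * (Real.exp (-Λ) * Real.exp (-((K + 1) * L))) := by rw [Real.exp_add]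
    _ ≤ _ := by
        apply mul_le_mul_of_nonneg_left _ (by linarith)
        exact mul_le_mul_of_nonneg_right hκ (Real.exp_pos _).le

lemma e2 {K β ART A0 : ℕ} {L Λ D X S1 iy X50 η κ w w2 : ℝ} (hβ : 1 ≤ β) (hβK : β ≤ K)
    (hX : 0 ≤ X) (hL : 1 ≤ L) (hΛ : 0 ≤ Λ) (hD : D ≤ Λ) (hS1 : S1 ≤ Real.log L + D)
    (hiY0 : 0 ≤ iy) (hX50 : 0 ≤ X50) (hiY : iy ≤ Real.exp (-(A0 * L)))
    (hX5 : X50 ≤ Real.exp (-(A0 * L))) (hη : 0 ≤ η) (hκ0 : 0 < κ) (hκ1 : κ ≤ 1)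
    (h48 : 48 * (K : ℝ) ^ 2 ≤ η * Real.exp Λ) (hκ : Real.exp (-Λ) ≤ κ ^ (K + 1))
    (hA0 : A0 = ART + 2) (hw : 0 ≤ w) (hw2 : 0 ≤ w2) (hww : w2 * κ ^ β ≤ w * L ^ β)
    (H3 : Real.exp (2 * Λ + 3 * K * Λ) * L ^ (4 * K) ≤ Real.exp L) :
    2 * w2 * (β * Real.exp (3 * β * S1) * X * Real.exp L ^ ART * (iy + X50))
      ≤ η / 8 * (X * (κ * Real.exp (-L) * w)) := by
  have hK : (1 : ℝ) ≤ K := by exact_mod_cast hβ.trans hβK
  have hβK' : (β : ℝ) ≤ K := by exact_mod_cast hβK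
  have hβ0 : (0 : ℝ) ≤ β := Nat.cast_nonneg _
  have hL0 : 0 < L := by linarith
  have hlog : 0 ≤ Real.log L := Real.log_nonneg hL
  have a2 : Real.exp (3 * β * S1) ≤ L ^ (3 * K) * Real.exp (3 * K * Λ) := by
    have h1 : 3 * (β : ℝ) * S1 ≤ 3 * (K * (Real.log L + Λ)) := by
      have := mulK hβK (show S1 ≤ Real.log L + Λ by linarith) (by linarith)
      linarith
    have h2 : Real.exp (3 * (K * (Real.log L + Λ))) = L ^ (3 * K) * Real.exp (3 * K * Λ) := by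
      have h3 : 3 * ((K : ℝ) * (Real.log L + Λ)) = ((3 * K : ℕ) : ℝ) * Real.log L + 3 * K * Λ := by
        push_cast
        ring
      rw [h3, Real.exp_add, Real.exp_nat_mul, Real.exp_log hL0]
    rw [← h2]
    exact Real.exp_le_exp.2 h1
  have a3 : iy + X50 ≤ 2 * Real.exp (-(A0 * L)) := by linarith
  have b3 : (Real.exp L) ^ ART = Real.exp (ART * L) := by rw [← Real.exp_nat_mul]
  rw [b3]
  have hκK : κ ^ K ≤ κ ^ β := pow_le_pow_of_le_one hκ0.le hκ1 hβK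
  have hLK : L ^ β ≤ L ^ K := pow_le_pow_right₀ hL hβK
  have hww' : w2 * κ ^ K ≤ w * L ^ K := by
    calc w2 * κ ^ K ≤ w2 * κ ^ β := mul_le_mul_of_nonneg_left hκK hw2
      _ ≤ w * L ^ β := hww
      _ ≤ w * L ^ K := mul_le_mul_of_nonneg_left hLK hw
  have c1 : 2 * w2 * (β * Real.exp (3 * β * S1) * X * Real.exp (ART * L) * (iy + X50))
      ≤ 2 * w2 * (K * (L ^ (3 * K) * Real.exp (3 * K * Λ)) * X * Real.exp (ART * L) *
        (2 * Real.exp (-(A0 * L)))) := by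
    gcongr
  refine c1.trans ?_
  have d1 : 2 * w2 * (K * (L ^ (3 * K) * Real.exp (3 * K * Λ)) * X * Real.exp (ART * L) *
        (2 * Real.exp (-(A0 * L))))
      = X * (w2 * (4 * K) * (L ^ (3 * K) * Real.exp (3 * K * Λ)) * Real.exp (-(2 * L))) := by
    have h1 : Real.exp (ART * L) * Real.exp (-(A0 * L)) = Real.exp (-(2 * L)) := by
      rw [← Real.exp_add]
      congr 1
      rw [hA0]
      push_cast
      ring
    calc 2 * w2 * (K * (L ^ (3 * K) * Real.exp (3 * K * Λ)) * X * Real.exp (ART * L) *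
        (2 * Real.exp (-(A0 * L))))
        = X * (w2 * (4 * K) * (L ^ (3 * K) * Real.exp (3 * K * Λ)) *
          (Real.exp (ART * L) * Real.exp (-(A0 * L)))) := by ring
      _ = _ := by rw [h1]
  rw [d1]
  have d2 : η / 8 * (X * (κ * Real.exp (-L) * w)) = X * (η / 8 * (κ * Real.exp (-L) * w)) := by
    ring
  rw [d2]
  apply mul_le_mul_of_nonneg_left _ hX
  -- multiply by `κ ^ K`
  have hκK0 : 0 < κ ^ K := by positivity
  apply le_of_mul_le_mul_right _ hκK0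
  have f1 : 4 * (K : ℝ) ≤ η / 8 * Real.exp Λ := by
    have : 32 * (K : ℝ) ≤ η * Real.exp Λ := by nlinarith
    linarith
  calc w2 * (4 * K) * (L ^ (3 * K) * Real.exp (3 * K * Λ)) * Real.exp (-(2 * L)) * κ ^ K
      = (w2 * κ ^ K) * ((4 * K) * (L ^ (3 * K) * Real.exp (3 * K * Λ)) *
          Real.exp (-(2 * L))) := by ring
    _ ≤ (w * L ^ K) * ((η / 8 * Real.exp Λ) * (L ^ (3 * K) * Real.exp (3 * K * Λ)) *
          Real.exp (-(2 * L))) := by
        gcongr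
    _ = η / 8 * w * ((Real.exp (2 * Λ + 3 * K * Λ) * L ^ (4 * K)) *
          (Real.exp (-Λ) * Real.exp (-(2 * L)))) := by
        have g1 : Real.exp (2 * Λ + 3 * K * Λ) * Real.exp (-Λ) =
            Real.exp Λ * Real.exp (3 * K * Λ) := by
          rw [← Real.exp_add, ← Real.exp_add]
          congr 1
          ring
        have g2 : L ^ (4 * K) = L ^ K * L ^ (3 * K) := by
          rw [← pow_add]
          congr 1
          ring
        calc (w * L ^ K) * ((η / 8 * Real.exp Λ) * (L ^ (3 * K) * Real.exp (3 * K * Λ)) *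
          Real.exp (-(2 * L)))
            = η / 8 * w * (L ^ K * L ^ (3 * K)) * (Real.exp Λ * Real.exp (3 * K * Λ)) *
              Real.exp (-(2 * L)) := by ring
          _ = η / 8 * w * L ^ (4 * K) * (Real.exp (2 * Λ + 3 * K * Λ) * Real.exp (-Λ)) *
              Real.exp (-(2 * L)) := by rw [g1, g2]
          _ = _ := by ring
    _ ≤ η / 8 * w * (Real.exp L * (κ ^ (K + 1) * Real.exp (-(2 * L)))) := by
        gcongr
    _ = η / 8 * (κ * Real.exp (-L) * w) * κ ^ K := by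
        have g1 : Real.exp L * Real.exp (-(2 * L)) = Real.exp (-L) := by
          rw [← Real.exp_add]
          congr 1
          ring
        calc η / 8 * w * (Real.exp L * (κ ^ (K + 1) * Real.exp (-(2 * L))))
            = η / 8 * w * κ ^ (K + 1) * (Real.exp L * Real.exp (-(2 * L))) := by ring
          _ = _ := by
            rw [g1, pow_succ]
            ring

lemma e3 {K W : ℕ} {L Λ D T E32 η κ : ℝ} (hL : 32 ≤ L) (hΛ : 0 ≤ Λ) (hD : D ≤ Λ)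
    (hK : 1 ≤ K) (hE : L ^ 3 / 32 ≤ E32) (hT : T ≤ Real.exp (3 * K * (L + D) - E32))
    (hη : 0 ≤ η) (h48 : 48 * (K : ℝ) ^ 2 ≤ η * Real.exp Λ)
    (hκ : Real.exp (-Λ) ≤ κ ^ (K + 1)) (hW : 7 * K + 1 ≤ W)
    (H1 : 3 * Λ + 6 * K * Λ + W * L ≤ L ^ 2) :
    3 * T ≤ η / 8 * (κ ^ (K + 1) * Real.exp (-((K + 1) * L))) ∧ T ≤ 1 := by
  have hK' : (1 : ℝ) ≤ K := by exact_mod_cast hK
  have hW' : 7 * (K : ℝ) + 1 ≤ W := by exact_mod_cast hW
  have hE2 : L ^ 2 ≤ E32 := by nlinarith [sq_nonneg L]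
  have f1 : (7 * (K : ℝ) + 1) * L ≤ W * L := mul_le_mul_of_nonneg_right hW' (by linarith)
  have f2 : 0 ≤ (K : ℝ) * Λ := by positivity
  have f3 : 0 ≤ (K : ℝ) * L := by positivity
  have f4 : (K : ℝ) * D ≤ K * Λ := mul_le_mul_of_nonneg_left hD (by linarith)
  have h1 : T ≤ Real.exp (-(2 * Λ) + -((K + 1) * L)) := by
    refine hT.trans (Real.exp_le_exp.2 ?_)
    nlinarith
  have h24 : 24 ≤ η * Real.exp Λ := by nlinarith
  constructor
  · calc 3 * T ≤ 3 * Real.exp (-(2 * Λ) + -((K + 1) * L)) := by linarith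
      _ ≤ (η / 8 * Real.exp Λ) * Real.exp (-(2 * Λ) + -((K + 1) * L)) := by
          apply mul_le_mul_of_nonneg_right _ (Real.exp_pos _).le
          linarith
      _ = η / 8 * (Real.exp (-Λ) * Real.exp (-((K + 1) * L))) := by
          rw [mul_assoc, ← Real.exp_add, ← Real.exp_add]
          congr 2
          ring
      _ ≤ _ := by
          apply mul_le_mul_of_nonneg_left _ (by linarith)
          exact mul_le_mul_of_nonneg_right hκ (Real.exp_pos _).le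
  · refine h1.trans ?_
    rw [Real.exp_le_one_iff]
    nlinarith

lemma e4 {K W : ℕ} {L Λ X z4 η κ : ℝ} (hL : 32 ≤ L) (hΛ : 0 ≤ Λ) (hK : 1 ≤ K)
    (hX : Real.exp (93 / 100 * Real.exp L) ≤ X) (hz4 : z4 ≤ Real.exp (1 / 4 * Real.exp L))
    (hη : 0 ≤ η) (h48 : 48 * (K : ℝ) ^ 2 ≤ η * Real.exp Λ)
    (hκ : Real.exp (-Λ) ≤ κ ^ (K + 1)) (hW : 7 * K + 1 ≤ W)
    (H1 : 3 * Λ + 6 * K * Λ + W * L ≤ L ^ 2) (H4 : 50 * L ^ 2 ≤ Real.exp L) :
    3 * z4 ≤ η / 8 * (X / 2 * (κ ^ (K + 1) * Real.exp (-((K + 1) * L)))) := by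
  have hK' : (1 : ℝ) ≤ K := by exact_mod_cast hK
  have hW' : 7 * (K : ℝ) + 1 ≤ W := by exact_mod_cast hW
  have f1 : (7 * (K : ℝ) + 1) * L ≤ W * L := mul_le_mul_of_nonneg_right hW' (by linarith)
  have f2 : 0 ≤ (K : ℝ) * Λ := by positivity
  have f3 : 0 ≤ (K : ℝ) * L := by positivity
  have h48' : 48 ≤ η * Real.exp Λ := by nlinarith
  calc 3 * z4 ≤ 3 * Real.exp (1 / 4 * Real.exp L) := by linarith
    _ ≤ (η / 16 * Real.exp Λ) * Real.exp (1 / 4 * Real.exp L) := by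
        apply mul_le_mul_of_nonneg_right _ (Real.exp_pos _).le
        linarith
    _ = η / 16 * Real.exp (Λ + 1 / 4 * Real.exp L) := by
        rw [mul_assoc, ← Real.exp_add]
    _ ≤ η / 16 * Real.exp (93 / 100 * Real.exp L + (-Λ + -((K + 1) * L))) := by
        apply mul_le_mul_of_nonneg_left _ (by linarith)
        apply Real.exp_le_exp.2
        nlinarith
    _ = η / 16 * (Real.exp (93 / 100 * Real.exp L) *
          (Real.exp (-Λ) * Real.exp (-((K + 1) * L)))) := by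
        rw [Real.exp_add, Real.exp_add]
    _ ≤ η / 16 * (X * (κ ^ (K + 1) * Real.exp (-((K + 1) * L)))) := by
        apply mul_le_mul_of_nonneg_left _ (by linarith)
        have h1 : Real.exp (-Λ) * Real.exp (-((K + 1) * L)) ≤
            κ ^ (K + 1) * Real.exp (-((K + 1) * L)) :=
          mul_le_mul_of_nonneg_right hκ (Real.exp_pos _).le
        exact mul_le_mul hX h1 (by positivity) ((Real.exp_pos _).le.trans hX)
    _ = _ := by ring

/-- the error `τ` of the truncation -/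
lemma e5 {K W : ℕ} {L Λ D τ E32 η κ w : ℝ} (hL : 32 ≤ L) (hΛ : 0 ≤ Λ) (hD : D ≤ Λ)
    (hK : 1 ≤ K) (hE : L ^ 3 / 32 ≤ E32) (hT : τ ≤ Real.exp (6 * K * (L + D) - E32))
    (hη : 0 ≤ η) (hη1 : η ≤ 1) (h48 : 48 * (K : ℝ) ^ 2 ≤ η * Real.exp Λ)
    (hκ : Real.exp (-Λ) ≤ κ ^ (K + 1)) (hW : 7 * K + 1 ≤ W)
    (H1 : 3 * Λ + 6 * K * Λ + W * L ≤ L ^ 2)
    (hw : κ ^ (K + 1) * Real.exp (-(K * L)) ≤ w) :
    3 * τ ≤ η / 2 * w ∧ τ ≤ w := by
  have hK' : (1 : ℝ) ≤ K := by exact_mod_cast hK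
  have hW' : 7 * (K : ℝ) + 1 ≤ W := by exact_mod_cast hW
  have hE2 : L ^ 2 ≤ E32 := by nlinarith [sq_nonneg L]
  have f1 : (7 * (K : ℝ) + 1) * L ≤ W * L := mul_le_mul_of_nonneg_right hW' (by linarith)
  have f2 : 0 ≤ (K : ℝ) * Λ := by positivity
  have f3 : 0 ≤ (K : ℝ) * L := by positivity
  have f4 : (K : ℝ) * D ≤ K * Λ := mul_le_mul_of_nonneg_left hD (by linarith)
  have h1 : τ ≤ Real.exp (-(2 * Λ) + -(K * L)) := by
    refine hT.trans (Real.exp_le_exp.2 ?_)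
    nlinarith
  have h24 : 48 ≤ η * Real.exp Λ := by nlinarith
  have h2 : Real.exp (-Λ) * Real.exp (-(K * L)) ≤ w :=
    (mul_le_mul_of_nonneg_right hκ (Real.exp_pos _).le).trans hw
  have hw0 : 0 ≤ w := le_trans (by positivity) h2
  have h3 : 3 * τ ≤ η / 2 * w := by
    calc 3 * τ ≤ 3 * Real.exp (-(2 * Λ) + -(K * L)) := by linarith
      _ ≤ (η / 2 * Real.exp Λ) * Real.exp (-(2 * Λ) + -(K * L)) := by
          apply mul_le_mul_of_nonneg_right _ (Real.exp_pos _).le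
          linarith
      _ = η / 2 * (Real.exp (-Λ) * Real.exp (-(K * L))) := by
          rw [mul_assoc, ← Real.exp_add, ← Real.exp_add]
          congr 2
          ring
      _ ≤ _ := mul_le_mul_of_nonneg_left h2 (by linarith)
  refine ⟨h3, ?_⟩
  have h4 : η / 2 * w ≤ 3 * w := mul_le_mul_of_nonneg_right (by linarith) hw0
  linarith

end Pool.Agent.Helper74.MC
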